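import Pool.Agent.H.MP_83e36b_nt.rd.FinLD
import Pool.Agent.H.MP_83e36b_nt.td.STrA

/-! Weak approximation as a special case of the reduction theorem. -/

set_option autoImplicit false

open Polynomial NumberField IsDedekindDomain

namespace NF83

open CM83 NR83 WA83 DC83

/-- Proof: induction; `MonoidHom.id_comp`. -/
theorem RTow.of_rtower {k : Type} [Field k] {K : Type} [Field K] [Algebra k K] {G : Type} [Group G]
    {α : G →* (K ≃ₐ[k] K)} (h : RTower α) : RTow (MonoidHom.id (K ≃ₐ[k] K)) α := by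
  induction h with
  | gal α h => exact RTow.base α h
  | refl γ q hq ρ Z h hγ ih =>
    exact RTow.refl γ q hq ρ Z (by rw [MonoidHom.id_comp]; exact h) ih
  | alt γ q hq hN hγ ih => exact RTow.alt γ q hq hN ih
  | dbl γ q hq n N hn hN φ hφ hγ ih => exact RTow.dbl γ q hq n N hn hN φ hφ ih
  | spl γ q s hs n hn χ π h hγ ih => exact RTow.spl γ q s hs n hn χ π h ih

/-- every element of `K(x_1, ..., x_0)` is a constant -/
theorem Cor_const {K : Type} [Field K] (z : RF K 0) : ∃ a : K, algebraMap K (RF K 0) a = z := by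
  have h : ∀ p : MvPolynomial (Fin 0) K, ∃ a : K,
      algebraMap K (RF K 0) a = algebraMap (MvPolynomial (Fin 0) K) (RF K 0) p := by
    intro p
    obtain ⟨a, ha⟩ := MvPolynomial.C_surjective (Fin 0) p
    refine ⟨a, ?_⟩
    rw [← ha, IsScalarTower.algebraMap_apply K (MvPolynomial (Fin 0) K) (RF K 0)]
    rfl
  obtain ⟨p, q, _, rfl⟩ := IsFractionRing.div_surjective (MvPolynomial (Fin 0) K) z
  obtain ⟨a, ha⟩ := h p
  obtain ⟨b, hb⟩ := h q
  exact ⟨a / b, by rw [map_div₀, ha, hb]⟩

/-- the inclusion of the constants -/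
theorem Cor_hom (K : Type) [Field K] (d : ℕ) : Nonempty (RF K 0 →ₐ[K] RF K d) := by
  have h : Function.Bijective (Algebra.ofId K (RF K 0)) :=
    ⟨(algebraMap K (RF K 0)).injective, fun z => Cor_const z⟩
  exact ⟨(Algebra.ofId K (RF K d)).comp (AlgEquiv.ofBijective _ h).symm.toAlgHom⟩

/-- the action of the Galois group on `K(x_1, ..., x_0) = K`.
Proof: `exists_repAct` (see `tr_norm2` in td/STrA.lean) with `b = 0`; `SemiLin`: see nr/TDefs.lean (or where
it is defined); `δ` is injective because `δ g` is `g` on the constants. -/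
theorem exists_act0 {k : Type} [Field k] {K : Type} [Field K] [Algebra k K] :
    ∃ δ : (K ≃ₐ[k] K) →* (RF K 0 ≃ₐ[k] RF K 0), SemiLin (MonoidHom.id (K ≃ₐ[k] K)) δ := by
  obtain ⟨δ, hδ, -⟩ := exists_repAct (k := k) (E := K) (MonoidHom.id (K ≃ₐ[k] K)) (d := 0)
    (1 : (K ≃ₐ[k] K) →* Matrix.GeneralLinearGroup (Fin 0) k)
  refine ⟨δ, hδ, fun _ i => i.elim0, fun g g' h => ?_⟩
  ext a
  have h1 := hδ g a
  rw [h, hδ g' a] at h1
  exact ((algebraMap K (RF K 0)).injective h1).symm

/-- Weak approximation, deduced from `main_DL` alone.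
Proof: `main_DL` for `A = Gal(K/k)` (`MonoidHom.id`; `gal_of_fixR hfix`), `p = α` (`RTow.of_rtower`), `δ`
from `exists_act0`, `φ : K(x_1, ..., x_0) → K(x_1, ..., x_d)` over `K` (`IsFractionRing.liftAlgHom` of
`MvPolynomial.aeval`, or the inverse of the bijective `algebraMap K (RF K 0)`), `n = 0`, `N = 0`
(`w`, `w'`, `c` are functions on `Fin 0`): every element of `RF K 0` is a constant, and it is in `k` if it
is fixed by the Galois group.  `hF` gives `StIsoRel`.  In `WARel` take `U = univ`: the target of the map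
is a subsingleton, and `PtsA k w L` is nonempty (a polynomial in no variables with value `0` is `0`).
`Set.univ ⊆ closure (range ...)` is `DenseRange`. -/
theorem main_cor {k : Type} [Field k] [NumberField k] {K : Type} [Field K] [Algebra k K]
    {G : Type} [Group G] [Finite G] (α : G →* (K ≃ₐ[k] K)) (hfix : fixF α = ⊥) (hα : RTower α)
    {d : ℕ} (β : G →* (RF K d ≃ₐ[k] RF K d)) (hβ : SemiLin α β)
    {m : ℕ} {f g : (MvPolynomial (Fin m) k)[X]} {F : Type} [Field F] [Algebra k F]
    {ξ : Fin m → F} {η : F} (h : Generic f F ξ η) (hg : evP (algebraMap k F) ξ η g ≠ 0)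
    (hF : StablyIso k F (fixF β)) (L : Type) [Field L] [NumberField L] [Algebra k L] :
    WAFin L (polL k L f) (polL k L g) := by
  obtain ⟨-, -, hαs⟩ := gal_of_fixR hfix
  have : Finite (K ≃ₐ[k] K) := Finite.of_surjective α hαs
  have hfix' : fixF (MonoidHom.id (K ≃ₐ[k] K)) = ⊥ := by
    rw [← hfix]
    exact (fixF_comp (MonoidHom.id (K ≃ₐ[k] K)) α hαs).symm
  obtain ⟨δ, hδ⟩ := exists_act0 (k := k) (K := K)
  obtain ⟨φ⟩ := Cor_hom K d
  have hφ : ∀ g z, β g (φ z) = φ (δ (α g) z) := by
    intro g z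
    obtain ⟨a, rfl⟩ := Cor_const z
    rw [φ.commutes, hβ.coeff, hδ.coeff, φ.commutes]
    rfl
  have hw : IntermediateField.adjoin k (Set.range (fun j => j.elim0 : Fin 0 → fixF δ)) = ⊤ := by
    rw [eq_top_iff]
    rintro ⟨z, hz⟩ _
    have hz' := hz
    rw [mem_fixF] at hz'
    obtain ⟨a, rfl⟩ := Cor_const z
    have ha : a ∈ (⊥ : IntermediateField k K) := by
      rw [← hfix', mem_fixF]
      intro g
      have h1 := hz' g
      rw [hδ.coeff] at h1
      exact (algebraMap K (RF K 0)).injective h1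
    obtain ⟨c, rfl⟩ := IntermediateField.mem_bot.1 ha
    have h2 : (⟨algebraMap K (RF K 0) (algebraMap k K c), hz⟩ : fixF δ) =
        algebraMap k (fixF δ) c := by
      apply Subtype.ext
      show algebraMap K (RF K 0) (algebraMap k K c) = algebraMap k (RF K 0) c
      rw [← IsScalarTower.algebraMap_apply]
    rw [h2]
    exact IntermediateField.algebraMap_mem _ c
  obtain ⟨a, b, ⟨e⟩⟩ := hF
  have hM := main_DL (MonoidHom.id (K ≃ₐ[k] K)) hfix' α (RTow.of_rtower hα) β hβ δ hδ φ hφ h hg
    (n := 0) (fun j => j.elim0) hw (fun j => j.elim0) 0 (fun j => j.elim0) (fun j => j.elim0)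
    ⟨a, b, e, fun j => j.elim0⟩ L
  intro T
  have h1 := hM T Set.univ isOpen_univ (by
    intro u _
    apply subset_closure
    refine ⟨⟨fun j => j.elim0, ?_⟩, ?_⟩
    · intro p hp
      obtain ⟨a, rfl⟩ := MvPolynomial.C_surjective (Fin 0) p
      rw [MvPolynomial.aeval_C] at hp ⊢
      have ha : a = 0 := (algebraMap k (fixF δ)).injective (by rw [hp, map_zero])
      rw [ha, map_zero]
    · refine Prod.ext ?_ ?_
      · funext v j
        exact j.elim0
      · funext v j
        exact j.elim0)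
  intro x
  exact h1 (Set.mem_univ x)

end NF83
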