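import Mathlib

/-! A ring of functions generated by given elements and the inverse of one function. -/

set_option autoImplicit false

namespace NF83

/-- Proof: every `c` in `T` is `aeval w C_c / aeval w D_c` with `aeval w D_c ≠ 0`
(`IntermediateField.mem_adjoin_range_iff` or induction); `D = ∏ D_c`; `A` = the set of the `c` in `M` with
`c * (aeval w D) ^ N = aeval w C` for some `C`, `N`.  `ψ c = φC(x) / φD(x) ^ N`: it does not depend on the
choice: if `C(w) D(w)^N' = C'(w) D(w)^N` then `h = C * D^N' - C' * D^N` is a relation (`hx`).  Compare with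
`spec_ring` in rf/SpecR.lean. -/
theorem ring_W {kk : Type} [Field kk] {M : Type} [Field M] [Algebra kk M]
    (F : IntermediateField kk M) {r : ℕ} (w : Fin r → M) (hwF : ∀ j, w j ∈ F)
    (hw : F ≤ IntermediateField.adjoin kk (Set.range w)) (T : Finset F) :
    ∃ (D : MvPolynomial (Fin r) kk) (A : Subalgebra kk M), MvPolynomial.aeval w D ≠ 0 ∧
      (∀ c ∈ A, c ∈ F) ∧ (∀ c ∈ T, (c : M) ∈ A) ∧
      (∀ C : MvPolynomial (Fin r) kk, MvPolynomial.aeval w C ∈ A) ∧
      (∀ c ∈ A, ∃ (C : MvPolynomial (Fin r) kk) (N : ℕ),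
        c * MvPolynomial.aeval w D ^ N = MvPolynomial.aeval w C) ∧
      ∀ (L : Type) [Field L] (φ : kk →+* L) (x : Fin r → L),
        (∀ h : MvPolynomial (Fin r) kk, MvPolynomial.aeval w h = 0 →
          MvPolynomial.eval₂ φ x h = 0) → MvPolynomial.eval₂ φ x D ≠ 0 →
        ∃ ψ : A →+* L, ∀ (c : A) (C : MvPolynomial (Fin r) kk),
          (c : M) = MvPolynomial.aeval w C → ψ c = MvPolynomial.eval₂ φ x C := by
  classical
  obtain ⟨a, ha⟩ : ∃ a : MvPolynomial (Fin r) kk →ₐ[kk] M, a = MvPolynomial.aeval w := ⟨_, rfl⟩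
  rw [← ha]
  have hfrac : ∀ c : F, ∃ (C E : MvPolynomial (Fin r) kk), a E ≠ 0 ∧ (c : M) * a E = a C := by
    intro c
    obtain ⟨C, E, hCE⟩ := IntermediateField.mem_adjoin_range_iff kk w (c : M) |>.1 (hw c.2)
    rw [← ha] at hCE
    by_cases hE : a E = 0
    · refine ⟨0, 1, ?_, ?_⟩
      · rw [map_one]
        exact one_ne_zero
      · rw [hCE, hE, div_zero, zero_mul, map_zero]
    · exact ⟨C, E, hE, by rw [hCE, div_mul_cancel₀ _ hE]⟩
  choose Cc Ec hE hc using hfrac
  obtain ⟨D, hD⟩ : ∃ D : MvPolynomial (Fin r) kk, D = ∏ c ∈ T, Ec c := ⟨_, rfl⟩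
  have haD : a D ≠ 0 := by
    rw [hD, map_prod]
    exact Finset.prod_ne_zero_iff.2 fun c _ => hE c
  have haF : ∀ C, a C ∈ F := by
    intro C
    rw [ha]
    induction C using MvPolynomial.induction_on with
    | C b =>
      rw [MvPolynomial.aeval_C]
      exact F.algebraMap_mem b
    | add p q hp hq =>
      rw [map_add]
      exact F.add_mem hp hq
    | mul_X p i hp =>
      rw [map_mul, MvPolynomial.aeval_X]
      exact F.mul_mem hp (hwF i)
  let A : Subalgebra kk M :=
    { carrier := {c | ∃ (C : MvPolynomial (Fin r) kk) (N : ℕ), c * a D ^ N = a C}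
      mul_mem' := by
        rintro c c' ⟨C, N, h1⟩ ⟨C', N', h2⟩
        refine ⟨C * C', N + N', ?_⟩
        rw [map_mul, ← h1, ← h2, pow_add]
        ring
      add_mem' := by
        rintro c c' ⟨C, N, h1⟩ ⟨C', N', h2⟩
        refine ⟨C * D ^ N' + C' * D ^ N, N + N', ?_⟩
        rw [map_add, map_mul, map_mul, map_pow, map_pow, ← h1, ← h2, pow_add]
        ring
      algebraMap_mem' := fun b => ⟨MvPolynomial.C b, 0, by
        rw [pow_zero, mul_one, ha, MvPolynomial.aeval_C]⟩ }
  have hA : ∀ c, c ∈ A ↔ ∃ (C : MvPolynomial (Fin r) kk) (N : ℕ), c * a D ^ N = a C :=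
    fun c => Iff.rfl
  refine ⟨D, A, haD, ?_, ?_, ?_, ?_, ?_⟩
  · intro c hcA
    obtain ⟨C, N, h1⟩ := (hA c).1 hcA
    have h2 : c = a C / a D ^ N := by
      rw [← h1, mul_div_cancel_right₀ _ (pow_ne_zero _ haD)]
    rw [h2]
    exact F.div_mem (haF C) (pow_mem (haF D) N)
  · intro c hcT
    refine (hA _).2 ⟨Cc c * ∏ b ∈ T.erase c, Ec b, 1, ?_⟩
    rw [pow_one, map_mul, ← hc c, hD, ← Finset.mul_prod_erase T Ec hcT, map_mul, mul_assoc]
  · intro C
    exact (hA _).2 ⟨C, 0, by rw [pow_zero, mul_one]⟩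
  · intro c hcA
    exact (hA c).1 hcA
  · intro L _ φ x hx hDx
    obtain ⟨e, he⟩ : ∃ e : MvPolynomial (Fin r) kk →+* L, e = MvPolynomial.eval₂Hom φ x :=
      ⟨_, rfl⟩
    have hee : ∀ C, e C = MvPolynomial.eval₂ φ x C := fun C => by
      rw [he]
      rfl
    have hx' : ∀ h, a h = 0 → e h = 0 := fun h hh => by
      rw [hee]
      exact hx h hh
    have hd : e D ≠ 0 := by
      rw [hee]
      exact hDx
    choose Cf Nf hf using fun c : A => (hA c).1 c.2
    obtain ⟨g, hg⟩ : ∃ g : A → L, g = fun c => e (Cf c) / e D ^ Nf c := ⟨_, rfl⟩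
    have hval : ∀ (c : A) (C : MvPolynomial (Fin r) kk) (N : ℕ), (c : M) * a D ^ N = a C →
        g c * e D ^ N = e C := by
      intro c C N h1
      rw [hg]
      dsimp only
      have h2 : a (Cf c * D ^ N - C * D ^ Nf c) = 0 := by
        rw [map_sub, map_mul, map_mul, map_pow, map_pow, ← h1, ← hf c]
        ring
      have h3 := hx' _ h2
      rw [map_sub, map_mul, map_mul, map_pow, map_pow, sub_eq_zero] at h3
      rw [div_mul_eq_mul_div, h3, mul_div_cancel_right₀ _ (pow_ne_zero _ hd)]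
    have hcan : ∀ (c : A) (C : MvPolynomial (Fin r) kk) (N : ℕ) (y : L),
        (c : M) * a D ^ N = a C → y * e D ^ N = e C → g c = y := by
      intro c C N y h1 h2
      exact mul_right_cancel₀ (pow_ne_zero N hd) ((hval c C N h1).trans h2.symm)
    let ψ : A →+* L :=
      { toFun := g
        map_one' := hcan 1 1 0 1 (by
          rw [pow_zero, mul_one, map_one]
          rfl) (by rw [pow_zero, mul_one, map_one])
        map_zero' := hcan 0 0 0 0 (by
          rw [pow_zero, mul_one, map_zero]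
          rfl) (by rw [pow_zero, mul_one, map_zero])
        map_mul' := fun c c' => hcan (c * c') (Cf c * Cf c') (Nf c + Nf c') _ (by
          rw [map_mul, ← hf c, ← hf c', pow_add]
          show (c : M) * (c' : M) * _ = _
          ring) (by
          rw [map_mul, ← hval c _ _ (hf c), ← hval c' _ _ (hf c'), pow_add]
          ring)
        map_add' := fun c c' => hcan (c + c') (Cf c * D ^ Nf c' + Cf c' * D ^ Nf c)
          (Nf c + Nf c') _ (by
          rw [map_add, map_mul, map_mul, map_pow, map_pow, ← hf c, ← hf c', pow_add]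
          show ((c : M) + (c' : M)) * _ = _
          ring) (by
          rw [map_add, map_mul, map_mul, map_pow, map_pow, ← hval c _ _ (hf c),
            ← hval c' _ _ (hf c'), pow_add]
          ring) }
    refine ⟨ψ, fun c C h1 => ?_⟩
    rw [← hee]
    exact hcan c C 0 (e C) (by rw [pow_zero, mul_one]; exact h1) (by rw [pow_zero, mul_one])

end NF83
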