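import Pool.Agent.H.MP_83e36b_nt.rf.PrimR
import Pool.Agent.H.MP_83e36b_nt.nr.Semi
import Pool.Agent.H.MP_83e36b_nt.nr.Core
import Pool.Agent.H.MP_83e36b_nt.rf.SpecR
import Pool.Agent.H.MP_83e36b_nt.rd.Ring

/-! The data of a Galois extension over a ring of functions with given generators. -/

set_option autoImplicit false

open Polynomial

namespace NF83

open CM83 NR83 WA83

/-- the product of the `X - β g y` has its coefficients in the fixed field -/
private theorem Data_coeff {kk : Type} [Field kk] {M : Type} [Field M] [Algebra kk M]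
    {G : Type} [Group G] [Fintype G]
    (β : G →* (M ≃ₐ[kk] M)) (y : M) (n : ℕ) :
    (∏ g, (X - C (β g y)) : M[X]).coeff n ∈ fixF β := by
  rw [mem_fixF]
  intro h
  have h1 : (∏ g, (X - C (β g y)) : M[X]).map (β h : M →+* M) = ∏ g, (X - C (β g y)) := by
    rw [Polynomial.map_prod]
    have h2 : ∀ g, (X - C (β g y) : M[X]).map (β h : M →+* M) = X - C (β (h * g) y) := by
      intro g
      rw [Polynomial.map_sub, Polynomial.map_X, Polynomial.map_C, map_mul]
      rfl
    rw [Finset.prod_congr rfl fun g _ => h2 g]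
    exact Fintype.prod_equiv (Equiv.mulLeft h) _ _ fun g => rfl
  have h3 := congrArg (fun P : M[X] => P.coeff n) h1
  simp only [Polynomial.coeff_map] at h3
  exact h3

/-- lifting of a polynomial with coefficients in a subalgebra -/
private theorem Data_lift {kk : Type} [Field kk] {M : Type} [Field M] [Algebra kk M]
    {F : IntermediateField kk M}
    {A : Subalgebra kk M} {T : Finset F} (hT : ∀ c ∈ T, (c : M) ∈ A) (P : F[X])
    (hP : P.coeffs ⊆ T) :
    ∃ P' : A[X], P'.map (algebraMap A M) = P.map (algebraMap F M) := by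
  rw [← Polynomial.mem_lifts, Polynomial.lifts_iff_coeff_lifts]
  intro n
  rw [Polynomial.coeff_map]
  by_cases h : P.coeff n = 0
  · exact ⟨0, by rw [h, map_zero, map_zero]⟩
  · exact ⟨⟨_, hT _ (hP (Polynomial.coeff_mem_coeffs h))⟩, rfl⟩

private theorem Data_aeval {R M : Type} [CommRing R] [Field M] [Algebra R M] (P : R[X]) (y : M) :
    aeval y P = (P.map (algebraMap R M)).eval y := by
  rw [Polynomial.aeval_def, Polynomial.eval₂_eq_eval_map]

/-- Proof: as `RevA_main` in rf/RevAR.lean (copy, with the private lemmas, prefix `Data_`), with `ring_W`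
(rd/Ring.lean) instead of `spec_ring`. -/
theorem rev_dataW {kk : Type} [Field kk] [CharZero kk] {M : Type} [Field M] [Algebra kk M]
    {G : Type} [Group G] [Fintype G] (β : G →* (M ≃ₐ[kk] M)) (hβ : Function.Injective β) {r : ℕ}
    (w : Fin r → M) (hwF : ∀ j, w j ∈ fixF β)
    (hw : fixF β ≤ IntermediateField.adjoin kk (Set.range w)) (a : M) :
    ∃ (D : MvPolynomial (Fin r) kk) (A : Subalgebra kk M) (y : M) (Φ : A[X])
      (R : G → A[X]) (Q : A[X]), MvPolynomial.aeval w D ≠ 0 ∧ (∀ c ∈ A, c ∈ fixF β) ∧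
      (∀ C : MvPolynomial (Fin r) kk, MvPolynomial.aeval w C ∈ A) ∧
      (∀ c ∈ A, ∃ (C : MvPolynomial (Fin r) kk) (N : ℕ),
        c * MvPolynomial.aeval w D ^ N = MvPolynomial.aeval w C) ∧
      (∀ (L : Type) [Field L] (φ : kk →+* L) (x : Fin r → L),
        (∀ h : MvPolynomial (Fin r) kk, MvPolynomial.aeval w h = 0 →
          MvPolynomial.eval₂ φ x h = 0) → MvPolynomial.eval₂ φ x D ≠ 0 →
        ∃ ψ : A →+* L, ∀ (c : A) (C : MvPolynomial (Fin r) kk),
          (c : M) = MvPolynomial.aeval w C → ψ c = MvPolynomial.eval₂ φ x C) ∧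
      Φ.map (algebraMap A M) = ∏ g, (X - C (β g y)) ∧ (∀ g, aeval y (R g) = β g y) ∧
      aeval y Q = a ∧ Φ.Separable := by
  classical
  have : Finite β.range := Finite.of_surjective β.rangeRestrict β.rangeRestrict_surjective
  have h1 : FiniteDimensional (fixF β) M := by
    unfold fixF
    exact inferInstanceAs (FiniteDimensional (FixedPoints.subfield β.range M) M)
  have : Algebra.IsAlgebraic (fixF β) M := Algebra.IsAlgebraic.of_finite _ _
  obtain ⟨y, hy, hz⟩ := exists_prim β hβ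
  choose R₀ hR₀ using fun g => hz (β g y)
  obtain ⟨Q₀, hQ₀⟩ := hz a
  have hΦ : (∏ g, (X - C (β g y)) : M[X]) ∈ Polynomial.lifts (algebraMap (fixF β) M) := by
    rw [Polynomial.lifts_iff_coeff_lifts]
    exact fun n => ⟨⟨_, Data_coeff β y n⟩, rfl⟩
  obtain ⟨Φ₁, hΦ₁⟩ := (Polynomial.mem_lifts _).1 hΦ
  have hsep : Φ₁.Separable := by
    rw [← Polynomial.separable_map (algebraMap (fixF β) M), hΦ₁]
    exact Polynomial.separable_prod_X_sub_C_iff.2 hy
  obtain ⟨U₀, V₀, hUV⟩ := hsep
  obtain ⟨D, A, hD, hAF, hTA, hev, hden, hhom⟩ := ring_W (fixF β) w hwF hw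
    (Φ₁.coeffs ∪ (U₀.coeffs ∪ (V₀.coeffs ∪ (Q₀.coeffs ∪
      Finset.univ.biUnion fun g => (R₀ g).coeffs))))
  have hR₁ : ∀ g, ∃ P' : A[X], P'.map (algebraMap A M) = (R₀ g).map (algebraMap (fixF β) M) :=
    fun g => Data_lift hTA (R₀ g) (by
      intro c hc
      simp only [Finset.mem_union, Finset.mem_biUnion]
      exact Or.inr (Or.inr (Or.inr (Or.inr ⟨g, Finset.mem_univ g, hc⟩))))
  choose R hR using hR₁
  obtain ⟨Φ, hΦ2⟩ := Data_lift hTA Φ₁ Finset.subset_union_left
  obtain ⟨U, hU⟩ := Data_lift hTA U₀ (by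
    intro c hc
    simp only [Finset.mem_union]
    exact Or.inr (Or.inl hc))
  obtain ⟨V, hV⟩ := Data_lift hTA V₀ (by
    intro c hc
    simp only [Finset.mem_union]
    exact Or.inr (Or.inr (Or.inl hc)))
  obtain ⟨Q, hQ⟩ := Data_lift hTA Q₀ (by
    intro c hc
    simp only [Finset.mem_union]
    exact Or.inr (Or.inr (Or.inr (Or.inl hc))))
  refine ⟨D, A, y, Φ, R, Q, hD, hAF, hev, hden, hhom, ?_, ?_, ?_, ?_⟩
  · rw [hΦ2, hΦ₁]
  · intro g
    rw [Data_aeval, hR, ← Data_aeval, hR₀]
  · rw [Data_aeval, hQ, ← Data_aeval, hQ₀]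
  · refine ⟨U, V, ?_⟩
    apply Polynomial.map_injective (algebraMap A M) Subtype.val_injective
    have h2 := congrArg (Polynomial.map (algebraMap (fixF β) M)) hUV
    rw [Polynomial.map_add, Polynomial.map_mul, Polynomial.map_mul, Polynomial.map_one,
      ← Polynomial.derivative_map] at h2
    rw [Polynomial.map_add, Polynomial.map_mul, Polynomial.map_mul, Polynomial.map_one,
      ← Polynomial.derivative_map, hU, hV, hΦ2, h2]

end NF83
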