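import Pool.Agent.H.MP_83e36b_nt.rf.SDefR
import Pool.Agent.H.MP_83e36b_nt.nr.Semi
import Pool.Agent.H.MP_83e36b_nt.rf.LGenR
import Pool.Agent.H.MP_83e36b_nt.wa.Alg

/-! The values at a local point. -/

set_option autoImplicit false

open Polynomial

namespace NF83

open CM83 NR83 WA83

/-- an automorphism which is trivial on the ring of coefficients -/
private theorem LocW_aeval {kk : Type} [Field kk] {E : Type*} [Field E] [Algebra kk E]
    (A : Subalgebra kk E) (σ : E ≃ₐ[kk] E) (hσ : ∀ c ∈ A, σ c = c) (y : E) (p : A[X]) :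
    aeval (σ y) p = σ (aeval y p) := by
  have h : (σ : E →+* E).comp (algebraMap A E) = algebraMap A E := by
    ext c
    exact hσ c.1 c.2
  have h2 := Polynomial.hom_eval₂ p (algebraMap A E) (σ : E →+* E) y
  rw [h] at h2
  exact h2.symm

/-- Proof: `ψ₀` is the homomorphism `hψ`; as the end of the proof of `rev_local` in rf/RevBR.lean (there
`θ` is on `RF K d`, `i = algebraMap K (RF K d)`). -/
theorem rev_locW {kk : Type} [Field kk] [CharZero kk] {K : Type} [Field K] [Algebra kk K]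
    {M : Type} [Field M] [Algebra kk M] {G : Type} [Group G] [Fintype G]
    {α : G →* (K ≃ₐ[kk] K)} {a : K} {β : G →* (M ≃ₐ[kk] M)} (i : K →+* M)
    (hi : ∀ g x, β g (i x) = i (α g x)) {A : Subalgebra kk M} (hA : ∀ c ∈ A, c ∈ fixF β)
    {y : M} {Φ : A[X]} {R : G → A[X]} {Q : A[X]}
    (hΦ : Φ.map (algebraMap A M) = ∏ g, (X - C (β g y))) (hR : ∀ g, aeval y (R g) = β g y)
    (hQ : aeval y Q = i a) (hd : Φ.Separable) {L : Type} [Field L] {Ω : Type} [Field Ω]
    [Algebra L Ω] (lam : K →+* Ω) (θ : M →+* Ω) (hθ : ∀ x, θ (i x) = lam x)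
    {ρ : (Ω ≃ₐ[L] Ω) →* G} (hτ : ∀ τ z, τ (θ z) = θ (β (ρ τ) z)) (ψ₀ : A →+* L)
    (hψ : ∀ c : A, algebraMap L Ω (ψ₀ c) = θ (c : M)) :
    SpecPt Φ R Q α a ((algebraMap L Ω).comp ψ₀) (fun g => θ (β g y)) lam ∧
      ∀ τ g, τ (θ (β g y)) = θ (β (ρ τ * g) y) := by
  classical
  have hcomp : (algebraMap L Ω).comp ψ₀ = θ.comp (algebraMap A M) := by
    ext c
    exact hψ c
  have hβA : ∀ g, ∀ c ∈ A, β g c = c := fun g c hc => (mem_fixF β c).1 (hA c hc) g
  have hev : ∀ (g : G) (p : A[X]),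
      p.eval₂ (θ.comp (algebraMap A M)) (θ (β g y)) = θ (β g (aeval y p)) := by
    intro g p
    rw [← LocW_aeval A (β g) (hβA g) y p]
    exact (Polynomial.hom_eval₂ p (algebraMap A M) θ (β g y)).symm
  refine ⟨⟨?_, ?_, ?_, ?_⟩, ?_⟩
  · have h1 : (Φ.map (algebraMap A M)).Separable := hd.map
    rw [hΦ] at h1
    have h2 := (Polynomial.separable_prod_X_sub_C_iff).1 h1
    exact θ.injective.comp h2
  · rw [hcomp, ← Polynomial.map_map, hΦ, Polynomial.map_prod]
    apply Finset.prod_congr rfl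
    intro g _
    rw [Polynomial.map_sub, Polynomial.map_X, Polynomial.map_C]
  · intro g h
    show (R h).eval₂ ((algebraMap L Ω).comp ψ₀) (θ (β g y)) = θ (β (g * h) y)
    rw [hcomp, hev, hR, map_mul]
    rfl
  · intro g
    show Q.eval₂ ((algebraMap L Ω).comp ψ₀) (θ (β g y)) = lam (α g a)
    rw [hcomp, hev, hQ, hi, hθ]
  · intro τ g
    show τ (θ (β g y)) = θ (β (ρ τ * g) y)
    rw [hτ, map_mul]
    rfl

end NF83
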