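import Pool.Agent.H.MP_83e36b_nt.rd.WDef
import Pool.Agent.H.MP_83e36b_nt.rd.Data
import Pool.Agent.H.MP_83e36b_nt.rd.Loc
import Pool.Agent.H.MP_83e36b_nt.rf.ExtR
import Pool.Agent.H.MP_83e36b_nt.rf.HomR
import Pool.Agent.H.MP_83e36b_nt.rf.NearR
import Pool.Agent.H.MP_83e36b_nt.wa.Local
import Pool.Agent.H.MP_83e36b_nt.nf.TrG

/-! Points near local points have the same homomorphisms of the Galois groups. -/

set_option autoImplicit false

open Polynomial SpinWA Topology DC83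

namespace NF83

open CM83 NR83 WA83

private theorem Rev_quot {kk : Type} [Field kk] {L : Type} [NormedField L] (φ : kk →+* L) {r : ℕ}
    (D C : MvPolynomial (Fin r) kk) (N : ℕ) (x : Fin r → L)
    (hD : MvPolynomial.eval₂ φ x D ≠ 0) {ε : ℝ} (hε : 0 < ε) :
    ∃ δ : ℝ, 0 < δ ∧ ∀ x' : Fin r → L, (∀ j, ‖x' j - x j‖ < δ) →
      MvPolynomial.eval₂ φ x' D ≠ 0 ∧
      ‖MvPolynomial.eval₂ φ x' C / MvPolynomial.eval₂ φ x' D ^ N -
        MvPolynomial.eval₂ φ x C / MvPolynomial.eval₂ φ x D ^ N‖ < ε := by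
  have hc1 : ContinuousAt (fun x : Fin r → L => MvPolynomial.eval₂ φ x D) x :=
    (cont' φ D).continuousAt
  have hc : ContinuousAt (fun x : Fin r → L =>
      MvPolynomial.eval₂ φ x C / MvPolynomial.eval₂ φ x D ^ N) x :=
    ((cont' φ C).continuousAt).div (hc1.pow N) (pow_ne_zero N hD)
  have h1 := hc1.eventually_ne hD
  have h2 := hc.eventually_mem (Metric.ball_mem_nhds _ hε)
  obtain ⟨δ, hδ, h⟩ := Metric.eventually_nhds_iff.1 (h1.and h2)
  refine ⟨δ, hδ, fun x' hx => ?_⟩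
  have h3 : dist x' x < δ := by
    rw [dist_pi_lt_iff hδ]
    intro j
    rw [dist_eq_norm]
    exact hx j
  obtain ⟨h4, h5⟩ := h h3
  rw [mem_ball_iff_norm] at h5
  exact ⟨h4, h5⟩

/-- Proof: as `rev_transferR` in rf/RevR.lean, with `rev_dataW` (for `M`, `δ`, `i a`) instead of
`rev_data`, `rev_locW` instead of `rev_local` and the points `happ` instead of `h`.  `ψ₀ v : B → Cp v`:
`rev_dataW` for `φ = em v`, `x = c v` (a polynomial relation `h(w) = 0` gives `h(c v) = 0` by applying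
`θ v`; `D(c v) ≠ 0` because `θ v` is injective), or by restricting `θ v`: the elements of
`B ⊆ fixF δ = kk(w)` are quotients of polynomials in `w`, so `θ v` maps them to `Cp v`;
`algebraMap (ψ₀ v b) = θ v b`.  The elements `b` of `B` are `C(w) / D(w)^N`, so near `c v` the values are
near (`quot_near`, for polynomials in several variables: `cont'` in wa/Local.lean). -/
theorem rev_near {kk : Type} [Field kk] [CharZero kk] [PlSys kk] {K : Type} [Field K]
    [Algebra kk K] [FiniteDimensional kk K] [IsGalois kk K] {A : Type} [Group A] [Finite A]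
    {γ : A →* (K ≃ₐ[kk] K)} (hγ : Function.Surjective γ) {M : Type} [Field M] [Algebra kk M]
    (δ : A →* (M ≃ₐ[kk] M)) (hδ : Function.Injective δ) (i : K →+* M)
    (hik : i.comp (algebraMap kk K) = algebraMap kk M) (hi : ∀ g x, δ g (i x) = i (γ g x)) {r : ℕ}
    (w : Fin r → M) (hwF : ∀ j, w j ∈ fixF δ)
    (hw : fixF δ ≤ IntermediateField.adjoin kk (Set.range w)) (S : Finset (Pk kk))
    (hS : S.Nonempty)
    (κ : K →+* Kb kk) (hκ : κ.comp (algebraMap kk K) = algebraMap kk (Kb kk))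
    (ι : ∀ v : Pk kk, Kb kk →+* Ok v)
    (hι : ∀ v : Pk kk, (ι v).comp (algebraMap kk (Kb kk)) = (algebraMap (Cp v) (Ok v)).comp (em v))
    (ρ : ∀ v : Pk kk, (Ok v ≃ₐ[Cp v] Ok v) →* A) (θ : ∀ v : Pk kk, M →+* Ok v)
    (hθ : ∀ v x, θ v (i x) = ι v (κ x)) (hτ : ∀ v τ z, τ (θ v z) = θ v (δ (ρ v τ) z))
    (c : ∀ v : Pk kk, Fin r → Cp v) (hc : ∀ v j, θ v (w j) = algebraMap (Cp v) (Ok v) (c v j))
    (happ : ∀ ε : ℝ, 0 < ε → ∃ a ∈ PtsA kk w kk, ∀ v ∈ S, ∀ j, ‖em v (a j) - c v j‖ < ε) :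
    ∃ β₀ : (Kb kk ≃ₐ[kk] Kb kk) →* A, Cts β₀ ∧ (∀ τ x, τ (κ x) = κ (γ (β₀ τ) x)) ∧
      ∀ v ∈ S, ∃ b : A, γ b = 1 ∧ ∀ τ τ₀, (∀ x, ι v (τ₀ x) = τ (ι v x)) →
        β₀ τ₀ = b * ρ v τ * b⁻¹ := by
  classical
  let _ : Fintype A := Fintype.ofFinite A
  obtain ⟨a, ha⟩ := Field.exists_primitive_element kk K
  have ha' : ∀ x : K, ∃ u : kk[X], x = aeval a u := by
    intro x
    have hx : x ∈ IntermediateField.adjoin kk {a} := by
      rw [ha]
      exact IntermediateField.mem_top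
    have hai : IsAlgebraic kk a := Algebra.IsAlgebraic.isAlgebraic a
    rw [← IntermediateField.mem_toSubalgebra,
      IntermediateField.adjoin_simple_toSubalgebra_of_isAlgebraic hai,
      Algebra.adjoin_singleton_eq_range_aeval] at hx
    obtain ⟨u, hu⟩ := hx
    exact ⟨u, hu.symm⟩
  obtain ⟨D, A', y, Φ, R, Q, hD, hA, hAC, hAN, hAψ, hΦ, hR, hQ, hsep⟩ :=
    rev_dataW δ hδ w hwF hw (i a)
  have hθk : ∀ v : Pk kk, (θ v).comp (algebraMap kk M) =
      (algebraMap (Cp v) (Ok v)).comp (em v) := by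
    intro v
    have h1 : (θ v).comp i = (ι v).comp κ := RingHom.ext fun x => hθ v x
    rw [← hik, ← RingHom.comp_assoc, h1, RingHom.comp_assoc, hκ, hι]
  have hev : ∀ (v : Pk kk) (h : MvPolynomial (Fin r) kk),
      algebraMap (Cp v) (Ok v) (MvPolynomial.eval₂ (em v) (c v) h) =
        θ v (MvPolynomial.aeval w h) := by
    intro v h
    have h1 : (fun j => algebraMap (Cp v) (Ok v) (c v j)) = fun j => θ v (w j) :=
      funext fun j => (hc v j).symm
    have h2 := MvPolynomial.eval₂_comp_left (algebraMap (Cp v) (Ok v)) (em v) (c v) h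
    have h3 := MvPolynomial.eval₂_comp_left (θ v) (algebraMap kk M) w h
    rw [hθk] at h3
    rw [MvPolynomial.aeval_def, h2, h3]
    exact congrArg (fun z => MvPolynomial.eval₂ ((algebraMap (Cp v) (Ok v)).comp (em v)) z h) h1
  have hrel : ∀ (v : Pk kk) (h : MvPolynomial (Fin r) kk), MvPolynomial.aeval w h = 0 →
      MvPolynomial.eval₂ (em v) (c v) h = 0 := by
    intro v h h0
    apply (algebraMap (Cp v) (Ok v)).injective
    rw [hev, h0, map_zero, map_zero]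
  have hDθ : ∀ v : Pk kk, θ v (MvPolynomial.aeval w D) ≠ 0 := fun v =>
    (map_ne_zero (θ v)).2 hD
  have hDv : ∀ v : Pk kk, MvPolynomial.eval₂ (em v) (c v) D ≠ 0 := by
    intro v h0
    apply hDθ v
    rw [← hev, h0, map_zero]
  choose ψ₀ hψ₀ using fun v : Pk kk => hAψ (Cp v) (em v) (c v) (hrel v) (hDv v)
  choose C N hCN using hAN
  -- the values of a homomorphism given by a point
  have hval : ∀ (L : Type) [Field L] (φ : kk →+* L) (x' : Fin r → L) (ψ : A' →+* L),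
      (∀ (c : A') (C : MvPolynomial (Fin r) kk),
        (c : M) = MvPolynomial.aeval w C → ψ c = MvPolynomial.eval₂ φ x' C) →
      MvPolynomial.eval₂ φ x' D ≠ 0 → ∀ c : A',
      ψ c = MvPolynomial.eval₂ φ x' (C c c.2) / MvPolynomial.eval₂ φ x' D ^ N c c.2 := by
    intro L _ φ x' ψ hψ hD' c
    have h1 : ψ ⟨_, hAC D⟩ = MvPolynomial.eval₂ φ x' D := hψ _ D rfl
    have h2 : ψ ⟨_, hAC (C c c.2)⟩ = MvPolynomial.eval₂ φ x' (C c c.2) := hψ _ _ rfl
    rw [eq_div_iff (pow_ne_zero _ hD'), ← h1, ← h2, ← map_pow, ← map_mul]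
    congr 1
    exact Subtype.ext (hCN c c.2)
  have hψθ : ∀ (v : Pk kk) (b : A'), algebraMap (Cp v) (Ok v) (ψ₀ v b) = θ v (b : M) := by
    intro v b
    rw [hval (Cp v) (em v) (c v) (ψ₀ v) (hψ₀ v) (hDv v) b, map_div₀, map_pow, hev, hev,
      div_eq_iff (pow_ne_zero _ (hDθ v)), ← map_pow, ← map_mul, hCN]
  have hloc := fun v : Pk kk => rev_locW i hi hA hΦ hR hQ hsep ((ι v).comp κ) (θ v) (hθ v)
    (hτ v) (ψ₀ v) (hψθ v)
  choose T ε hε hnear using fun v : Pk kk =>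
    spec_near Φ R Q γ a (ψ₀ v) ((ι v).comp κ) (fun g => θ v (δ g y)) (hloc v).1
  have hη : ∀ᶠ η : ℝ in 𝓝[>] 0, ∀ v ∈ S, (∀ x' : Fin r → Cp v, (∀ j, ‖x' j - c v j‖ < η) →
      MvPolynomial.eval₂ (em v) x' D ≠ 0) ∧ ∀ b ∈ T v, ∀ x' : Fin r → Cp v,
      (∀ j, ‖x' j - c v j‖ < η) →
      ‖MvPolynomial.eval₂ (em v) x' (C b b.2) / MvPolynomial.eval₂ (em v) x' D ^ N b b.2 -
        MvPolynomial.eval₂ (em v) (c v) (C b b.2) /
          MvPolynomial.eval₂ (em v) (c v) D ^ N b b.2‖ < ε v := by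
    rw [Filter.eventually_all_finset]
    intro v _
    refine Filter.Eventually.and ?_ ?_
    · obtain ⟨δ', hδ0, hδ1⟩ := Rev_quot (em v) D D 0 (c v) (hDv v) one_pos
      filter_upwards [Ioo_mem_nhdsGT hδ0] with δ'' hδ'' x' hx
      exact (hδ1 x' fun j => (hx j).trans hδ''.2).1
    · rw [Filter.eventually_all_finset]
      intro b _
      obtain ⟨δ', hδ0, hδ1⟩ := Rev_quot (em v) D (C b b.2) (N b b.2) (c v) (hDv v) (hε v)
      filter_upwards [Ioo_mem_nhdsGT hδ0] with δ'' hδ'' x' hx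
      exact (hδ1 x' fun j => (hx j).trans hδ''.2).2
  obtain ⟨η, hη1, hη0⟩ := (hη.and self_mem_nhdsWithin).exists
  obtain ⟨x, hx, hxc⟩ := happ η hη0
  have hcmp : ∀ (v : Pk kk) (h : MvPolynomial (Fin r) kk),
      MvPolynomial.eval₂ (em v) (fun j => em v (x j)) h =
        em v (MvPolynomial.eval₂ (RingHom.id kk) x h) := by
    intro v h
    have h1 := MvPolynomial.eval₂_comp_left (em v) (RingHom.id kk) x h
    rw [RingHom.comp_id] at h1
    exact h1.symm
  have hDx : MvPolynomial.eval₂ (RingHom.id kk) x D ≠ 0 := by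
    obtain ⟨v, hv⟩ := hS
    intro h0
    apply (hη1 v hv).1 (fun j => em v (x j)) (hxc v hv)
    rw [hcmp, h0, map_zero]
  obtain ⟨ψ, hψ⟩ := hAψ kk (RingHom.id kk) x (fun h h0 => hx h h0) hDx
  have hψv := hval kk (RingHom.id kk) x ψ hψ hDx
  have hψk : ψ.comp (algebraMap kk A') = RingHom.id kk := by
    ext b
    rw [RingHom.comp_apply]
    have h1 := hψ (algebraMap kk A' b) (MvPolynomial.C b) (by
      rw [MvPolynomial.aeval_C]
      rfl)
    rw [h1, MvPolynomial.eval₂_C]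
  obtain ⟨r₁, κ', hr, hκ'⟩ := spec_ext δ (A := A') (fun g c hc' => (mem_fixF δ c).1 (hA c hc') g)
    i hik γ hi ha' hΦ hR hQ hsep (Ω := Kb kk) ((algebraMap kk (Kb kk)).comp ψ)
  rw [RingHom.comp_assoc, hψk, RingHom.comp_id] at hκ'
  have halg : Algebra.IsAlgebraic kk (Kb kk) := AlgebraicClosure.isAlgebraic kk
  obtain ⟨r', ρ₀, hr', hcts, hτ', hκ₀⟩ := spec_hom hγ ha' hr hκ' κ hκ
  refine ⟨ρ₀, hcts, hκ₀, fun v hv => ?_⟩
  have hcomp : (algebraMap (Cp v) (Ok v)).comp ((em v).comp ψ) =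
      (ι v).comp ((algebraMap kk (Kb kk)).comp ψ) := by
    rw [← RingHom.comp_assoc, ← RingHom.comp_assoc, hι v]
  have hspec : SpecPt Φ R Q γ a ((algebraMap (Cp v) (Ok v)).comp ((em v).comp ψ))
      (fun g => ι v (r' g)) ((ι v).comp κ) := by
    rw [hcomp]
    refine ⟨fun g g' hg => hr'.inj ((ι v).injective hg), ?_, fun g g' => ?_, fun g => ?_⟩
    · rw [← Polynomial.map_map, hr'.root, Polynomial.map_prod]
      simp
    · rw [← Polynomial.hom_eval₂, hr'.mul]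
    · rw [← Polynomial.hom_eval₂, hr'.kap]
      rfl
  obtain ⟨k, hk, hk'⟩ := hnear v ((em v).comp ψ) (fun b hbT => by
    have h1 := (hη1 v hv).2 b hbT (fun j => em v (x j)) (hxc v hv)
    rw [← hval (Cp v) (em v) (c v) (ψ₀ v) (hψ₀ v) (hDv v) b, hcmp, hcmp, ← map_pow, ← map_div₀,
      ← hψv b] at h1
    exact h1) _ hspec
  have hγk : γ k = 1 := by
    ext x
    obtain ⟨u, rfl⟩ := ha' x
    have h1 := Polynomial.aeval_algHom_apply (γ k : K →ₐ[kk] K) a u
    rw [AlgEquiv.one_apply]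
    refine h1.symm.trans ?_
    congr 2
  refine ⟨k, hγk, fun τ τ₀ hττ => ?_⟩
  have h1 : τ (θ v (δ 1 y)) = θ v (δ (ρ v τ) y) := by
    rw [(hloc v).2 τ 1, mul_one]
  have h2 := hk' τ (ρ v τ) h1
  rw [← hττ, hτ'] at h2
  have h3 := hr'.inj ((ι v).injective h2)
  rw [eq_mul_inv_iff_mul_eq]
  exact h3

end NF83
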