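import Pool.Agent.H.MP_83e36b_nt.rd.Opn
import Pool.Agent.H.MP_83e36b_nt.rd.Rev
import Pool.Agent.H.MP_83e36b_nt.rd.Tr
import Pool.Agent.H.MP_83e36b_nt.bc.GenL

/-! Relative weak approximation from the lifting of homomorphisms. -/

set_option autoImplicit false

open Polynomial DC83

namespace NF83

open CM83 NR83 WA83

/-- the derivative does not vanish at the generic point -/
private theorem Eps_der {kk : Type} [Field kk] [CharZero kk] {m : ℕ}
    {f : (MvPolynomial (Fin m) kk)[X]} {F : Type} [Field F]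
    [Algebra kk F] {ξ : Fin m → F} {η : F} (h : Generic f F ξ η) :
    evP (algebraMap kk F) ξ η (derivative f) ≠ 0 := by
  intro h0
  have h1 := h.dvd _ h0
  have h2 : f.natDegree ≠ 0 := by
    intro h3
    apply h.deg
    rw [Polynomial.eq_C_of_natDegree_eq_zero h3, derivative_C]
  exact h.deg (Polynomial.eq_zero_of_dvd_of_natDegree_lt h1
    (Polynomial.natDegree_derivative_lt h2))

/-- Proof: `P`, `ε`, `H` given; `transferD` for `S` = all places.  For `hG`: given `κ`, `ι`, `ρ`, `θ`, `θ'`,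
let `P' v` be the point `(θ v ξ, θ v η)` (`evP (em v) (θ v ∘ ξ) (θ v η) q = θ v (evP ξ η q)`, see `TrGR_hom`,
`TrGR_der` in rf/TrGR.lean, so `f = 0`, `f_y ≠ 0`, `g ≠ 0`).
`valP c N (P' v) j = θ v (algebraMap F (RF F a) (evP ξ η (c j) / evP ξ η g ^ N))`, so by `he` its image in
`Ok v` is `θ' v (φ (w j))`.  `rev_near` for `θ' v ∘ φ : M → Ok v`, `p ∘ ρ v`, `valP c N (P' v)`, and the
points given by `H`: `β₀`.  `hL`: `ρ₀` with `p ∘ ρ₀ = β₀`. -/
theorem eps_rel {kk : Type} [Field kk] [CharZero kk] [Countable kk] [PlSys kk] [Finite (Pk kk)]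
    {K : Type} [Field K] [Algebra kk K] [FiniteDimensional kk K] [IsGalois kk K] {A G : Type}
    [Group A] [Finite A] [Group G] [Finite G] {γ : A →* (K ≃ₐ[kk] K)}
    (hγ : Function.Surjective γ) {p : G →* A} (hps : Function.Surjective p)
    (hL : RelLift kk γ p) {d : ℕ} (β : G →* (RF K d ≃ₐ[kk] RF K d))
    (hβ : SemiLin (γ.comp p) β) {M : Type} [Field M] [Algebra kk M] (δ : A →* (M ≃ₐ[kk] M))
    (hδ : Function.Injective δ) (i : K →+* M)
    (hik : i.comp (algebraMap kk K) = algebraMap kk M) (hi : ∀ g x, δ g (i x) = i (γ g x))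
    (φ : M →+* RF K d) (hφi : ∀ x, φ (i x) = algebraMap K (RF K d) x)
    (hφ : ∀ g z, β g (φ z) = φ (δ (p g) z)) {m : ℕ}
    {f g : (MvPolynomial (Fin m) kk)[X]} {F : Type} [Field F] [Algebra kk F] {ξ : Fin m → F} {η : F}
    (h : Generic f F ξ η) (hg : evP (algebraMap kk F) ξ η g ≠ 0) {r : ℕ} (w : Fin r → M)
    (hwF : ∀ j, w j ∈ fixF δ) (hw : fixF δ ≤ IntermediateField.adjoin kk (Set.range w))
    (c : Fin r → (MvPolynomial (Fin m) kk)[X]) (N : ℕ) {a : ℕ} (e : RF F a ≃ₐ[kk] fixF β)
    (he : ∀ j, ((e (algebraMap F (RF F a) (evP (algebraMap kk F) ξ η (c j) /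
      evP (algebraMap kk F) ξ η g ^ N)) : fixF β) : RF K d) = φ (w j)) :
    EpsRel kk f g (PtsA kk w kk) c N := by
  intro P ε hε H
  haveI : Fintype (Pk kk) := Fintype.ofFinite _
  have hα : Function.Surjective (γ.comp p) := hγ.comp hps
  obtain ⟨q, hq⟩ := transferD hα β hβ h hg e (Finset.univ : Finset (Pk kk)) (Finset.mem_univ _) P hε
    (by
      intro κ hκ ι hι ρ hρ _ θ θ' hθc hθξ hθη hθe hθK hθτ
      have hev : ∀ (v : Pk kk) (u : (MvPolynomial (Fin m) kk)[X]),
          evP (em v) (fun j => θ v (algebraMap F (RF F a) (ξ j))) (θ v (algebraMap F (RF F a) η)) u =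
            θ v (algebraMap F (RF F a) (evP (algebraMap kk F) ξ η u)) := by
        intro v u
        have h1 := evP_hom (algebraMap kk F) ((θ v).comp (algebraMap F (RF F a))) ξ η u
        have h2 : ((θ v).comp (algebraMap F (RF F a))).comp (algebraMap kk F) = em v :=
          RingHom.ext fun x => hθc v x
        rw [h2] at h1
        exact h1
      have hinj : ∀ v : Pk kk, Function.Injective fun x : F => θ v (algebraMap F (RF F a) x) :=
        fun v => ((θ v).comp (algebraMap F (RF F a))).injective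
      have hz : ∀ v : Pk kk, θ v (algebraMap F (RF F a) 0) = 0 := fun v => by
        rw [map_zero, map_zero]
      obtain ⟨P', hP'⟩ : ∃ P' : ∀ v : Pk kk, Pts f g (em v), ∀ v, (P' v).1 =
          ((fun j => θ v (algebraMap F (RF F a) (ξ j))), θ v (algebraMap F (RF F a) η)) := by
        refine ⟨fun v => ⟨((fun j => θ v (algebraMap F (RF F a) (ξ j))),
          θ v (algebraMap F (RF F a) η)), ?_, ?_, ?_⟩, fun v => rfl⟩
        · rw [hev, h.zero]
          exact hz v
        · rw [hev]
          intro h0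
          exact Eps_der h (hinj v (h0.trans (hz v).symm))
        · rw [hev]
          intro h0
          exact hg (hinj v (h0.trans (hz v).symm))
      have hval : ∀ (v : Pk kk) (j : Fin r), valP c N (P' v) j =
          θ v (algebraMap F (RF F a) (evP (algebraMap kk F) ξ η (c j) /
            evP (algebraMap kk F) ξ η g ^ N)) := by
        intro v j
        unfold valP
        rw [hP' v, hev, hev, map_div₀, map_div₀, map_pow, map_pow]
      obtain ⟨β₀, hβ₀c, hβ₀, hβ₀v⟩ := rev_near hγ δ hδ i hik hi w hwF hw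
        (Finset.univ : Finset (Pk kk)) ⟨p0 kk, Finset.mem_univ _⟩ κ hκ ι hι (fun v => p.comp (ρ v)) (fun v => (θ' v).comp φ)
        (fun v x => by
          show θ' v (φ (i x)) = ι v (κ x)
          rw [hφi, hθK])
        (fun v τ z => by
          show τ (θ' v (φ z)) = θ' v (φ (δ (p (ρ v τ)) z))
          rw [hθτ, hφ])
        (fun v => valP c N (P' v))
        (fun v j => by
          show θ' v (φ (w j)) = algebraMap (Cp v) (Ok v) (valP c N (P' v) j)
          rw [← he j, hθe, hval])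
        (fun ε' hε' => by
          obtain ⟨b, hb, hb2⟩ := H P' (fun v => ⟨fun j => by rw [hP' v]; exact hθξ v j, by
            rw [hP' v]
            exact hθη v⟩) ε' hε'
          exact ⟨b, hb, fun v _ j => hb2 v j⟩)
      obtain ⟨ρ₀, hρ₀c, hρ₀, hρ₀v⟩ := hL (Finset.univ : Finset (Pk kk)) κ hκ ι hι β₀ hβ₀c hβ₀ ρ hρ
        (fun v => hβ₀v v (Finset.mem_univ v))
      refine ⟨ρ₀, hρ₀c, fun τ x => ?_, fun v hv => hρ₀v v hv⟩
      rw [hβ₀ τ x]
      show κ (γ (β₀ τ) x) = κ (γ (p (ρ₀ τ)) x)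
      rw [hρ₀])
  exact ⟨q, fun v => hq v (Finset.mem_univ v)⟩

end NF83
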