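import Pool.Agent.H.MP_83e36b_nt.rr.TDef
import Pool.Agent.H.MP_83e36b_nt.bc.FDef

/-! Towers of extensions of finite groups over an arbitrary finite group. -/

set_option autoImplicit false

open Polynomial NumberField IsDedekindDomain

namespace NF83

open CM83 NR83 WA83 DC83

/-- The homomorphisms `p : G → A` (for a given `γ : A → Gal(K/k)`) for which the group `G` is built up
over `A` in finitely many steps, in any order, starting from an isomorphism `G → A` (`base`), by
surjections `q : G → B` with kernel
* a group which acts faithfully on a `K`-semilinear representation of `G` and generates with a finite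
  group of scalars a group generated by pseudo-reflections (`refl`),
* a group with a subnormal series whose factors are alternating groups `A_n`, `n ≥ 5`, `n ≠ 6`, or, more
  generally, the top of a Weyl tower (`alt`),
* the double cover `2.A_n`, `n ≥ 4`, mapped isomorphically onto the subgroup `2.A_n` of `2.A_N` by a
  homomorphism `φ` from `G` to `2.A_N` (`dbl`),
* the double cover `2.A_n`, `n ≥ 4`, which has a complement (`s` is a section of `q`) and on which `G`
  acts through `S_n`, i.e. the natural map from the kernel to `A_n` extends to a homomorphism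
  `π : G → S_n` (`spl`). -/
inductive RTow {k : Type} [Field k] {K : Type} [Field K] [Algebra k K] {A : Type} [Group A]
    (γ : A →* (K ≃ₐ[k] K)) : {G : Type} → [Group G] → (G →* A) → Prop
  | base {G : Type} [Group G] (p : G →* A) (h : Function.Bijective p) : RTow γ p
  | refl {G B : Type} [Group G] [Group B] (p : B →* A) (q : G →* B)
      (hq : Function.Surjective q) {n : ℕ} (ρ : G → Matrix (Fin n) (Fin n) K) (Z : Subgroup Kˣ)
      (h : KerReflZ (γ.comp p) q ρ Z) (hp : RTow γ p) : RTow γ (p.comp q)
  | alt {G B : Type} [Group G] [Group B] (p : B →* A) (q : G →* B)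
      (hq : Function.Surjective q) (hN : AltSeries q.ker ∨ Tower G q.ker) (hp : RTow γ p) :
      RTow γ (p.comp q)
  | dbl {G B : Type} [Group G] [Group B] (p : B →* A) (q : G →* B)
      (hq : Function.Surjective q) (n N : ℕ) (hn : 4 ≤ n) (hN : n ≤ N) (φ : G →* CMat N)
      (hφ : KerDbl n N q φ) (hp : RTow γ p) : RTow γ (p.comp q)
  | spl {G B : Type} [Group G] [Group B] (p : B →* A) (q : G →* B) (s : B →* G)
      (hs : ∀ b, q (s b) = b) (n : ℕ) (hn : 4 ≤ n) (χ : q.ker →* CMat n)
      (π : G →* Equiv.Perm (Fin n)) (h : KerAlt n q χ π) (hp : RTow γ p) : RTow γ (p.comp q)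

/-- the points over `L` of the affine variety over `k` with the ring of functions `k[w_1, ..., w_r]` -/
def PtsA (k : Type) [Field k] {M : Type} [Field M] [Algebra k M] {r : ℕ} (w : Fin r → M) (L : Type)
    [Field L] [Algebra k L] : Set (Fin r → L) :=
  {a | ∀ h : MvPolynomial (Fin r) k, MvPolynomial.aeval w h = 0 → MvPolynomial.aeval a h = 0}

/-- the values of the functions `c_j / g ^ N` at a point -/
noncomputable def valP {k : Type} [Field k] {m : ℕ} {f g : (MvPolynomial (Fin m) k)[X]} {r : ℕ}
    (c : Fin r → (MvPolynomial (Fin m) k)[X]) (N : ℕ) {R : Type} [Field R] {φ : k →+* R}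
    (p : Pts f g φ) : Fin r → R :=
  fun j => evP φ p.1.1 p.1.2 (c j) / evP φ p.1.1 p.1.2 g ^ N

/-- the extensions `F` and `M` of `k` become isomorphic over `k` after adding variables, by an
isomorphism which maps the elements `z j` of `F` to the elements `w j` of `M` -/
def StIsoRel (k : Type) [Field k] {F M : Type} [Field F] [Algebra k F] [Field M] [Algebra k M]
    {r : ℕ} (z : Fin r → F) (w : Fin r → M) : Prop :=
  ∃ (a b : ℕ) (e : RF F a ≃ₐ[k] RF M b), ∀ j,
    e (algebraMap F (RF F a) (z j)) = algebraMap M (RF M b) (w j)

/-- `G'` is the fibre product of `G` and `H` over `A` -/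
structure IsFibJ {G A H G' : Type} [Group G] [Group A] [Group H] [Group G'] (p : G →* A)
    (j : H →* A) (u : G' →* G) (v : G' →* H) : Prop where
  comp : ∀ x, p (u x) = j (v x)
  inj : ∀ x, u x = 1 → v x = 1 → x = 1
  surj : ∀ g h, p g = j h → ∃ x, u x = g ∧ v x = h

/-- all fibre products of `G` and Galois groups over `A` are towers -/
def TowJ {k : Type} [Field k] {K : Type} [Field K] [Algebra k K] {A G : Type} [Group A] [Group G]
    (γ : A →* (K ≃ₐ[k] K)) (p : G →* A) : Prop :=
  ∀ (E : Type) [Field E] [Algebra k E] [Algebra K E] (j : (E ≃ₐ[k] E) →* A),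
    (∀ σ a, σ (algebraMap K E a) = algebraMap K E (γ (j σ) a)) →
    ∀ (G' : Type) [Group G'] (u : G' →* G) (α' : G' →* (E ≃ₐ[k] E)), IsFibJ p j u α' → RTower α'

end NF83
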