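import Pool.Agent.H.MP_83e36b_nt.bc.FTr
import Pool.Agent.H.MP_83e36b_nt.bc.FTw
import Pool.Agent.H.MP_83e36b_nt.rd.TDef
import Pool.Agent.H.MP_83e36b_nt.rr.PullZ

/-! The fibre products of a tower over `A` with a Galois group over `A`. -/

set_option autoImplicit false

open NR83 CM83 DC83

namespace NF83

section
variable {G A B H G' : Type} [Group G] [Group A] [Group B] [Group H] [Group G']

/-- the fibre product -/
private def FibJ (p : B →* A) (j : H →* A) : Subgroup (B × H) where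
  carrier := {x | p x.1 = j x.2}
  one_mem' := by simp
  mul_mem' := by
    intro x y hx hy
    show p (x.1 * y.1) = j (x.2 * y.2)
    rw [map_mul, map_mul]
    exact congrArg₂ (· * ·) hx hy
  inv_mem' := by
    intro x hx
    show p (x.1)⁻¹ = j (x.2)⁻¹
    rw [map_inv, map_inv]
    exact congrArg _ hx

private def fibB (p : B →* A) (j : H →* A) : FibJ p j →* B :=
  (MonoidHom.fst _ _).comp (Subgroup.subtype _)

private def fibH (p : B →* A) (j : H →* A) : FibJ p j →* H :=
  (MonoidHom.snd _ _).comp (Subgroup.subtype _)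

private theorem isFibJ (p : B →* A) (j : H →* A) : IsFibJ p j (fibB p j) (fibH p j) :=
  ⟨fun x => x.2, fun _ h1 h2 => Subtype.ext (Prod.ext h1 h2), fun b h e => ⟨⟨(b, h), e⟩, rfl, rfl⟩⟩

private theorem Fib_q {p : B →* A} {q : G →* B} {j : H →* A} {u : G' →* G} {v : G' →* H}
    (h : IsFibJ (p.comp q) j u v) :
    ∃ q' : G' →* FibJ p j, (fibH p j).comp q' = v ∧ (∀ x, fibB p j (q' x) = q (u x)) ∧
      (Function.Surjective q → Function.Surjective q') ∧ KIso q q' u := by
  let q' : G' →* FibJ p j :=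
    { toFun := fun x => ⟨(q (u x), v x), h.comp x⟩
      map_one' := by
        refine Subtype.ext (Prod.ext ?_ ?_)
        · show q (u 1) = 1
          rw [map_one, map_one]
        · show v 1 = 1
          rw [map_one]
      map_mul' := fun x y => by
        refine Subtype.ext (Prod.ext ?_ ?_)
        · show q (u (x * y)) = q (u x) * q (u y)
          rw [map_mul, map_mul]
        · show v (x * y) = v x * v y
          rw [map_mul] }
  have hq1 : ∀ x, q' x = 1 ↔ q (u x) = 1 ∧ v x = 1 := by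
    intro x
    constructor
    · intro hx
      have h1 : ((q' x : FibJ p j) : B × H) = 1 := by rw [hx]; rfl
      exact ⟨congrArg Prod.fst h1, congrArg Prod.snd h1⟩
    · rintro ⟨h1, h2⟩
      exact Subtype.ext (Prod.ext h1 h2)
  refine ⟨q', MonoidHom.ext fun x => rfl, fun x => rfl, ?_, ?_, ?_, ?_⟩
  · rintro hq ⟨⟨b, σ⟩, ha⟩
    obtain ⟨g, rfl⟩ := hq b
    obtain ⟨x, rfl, rfl⟩ := h.surj g σ ha
    exact ⟨x, rfl⟩
  · exact fun x hx => ((hq1 x).1 hx).1
  · exact fun x hx hp => h.inj x hp ((hq1 x).1 hx).2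
  · intro g hg
    obtain ⟨x, hx1, hx2⟩ := h.surj g 1 (by
      show p (q g) = j 1
      rw [hg, map_one, map_one])
    refine ⟨x, (hq1 x).2 ⟨?_, hx2⟩, hx1⟩
    rw [hx1, hg]

private theorem Fib_s {p : B →* A} {q : G →* B} {j : H →* A} {u : G' →* G} {v : G' →* H}
    (h : IsFibJ (p.comp q) j u v) {q' : G' →* FibJ p j} (h1 : (fibH p j).comp q' = v)
    (h2 : ∀ x, fibB p j (q' x) = q (u x)) {s : B →* G} (hs : ∀ b, q (s b) = b) :
    ∃ s' : FibJ p j →* G', ∀ y, q' (s' y) = y := by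
  have huniq : ∀ x x' : G', u x = u x' → v x = v x' → x = x' := by
    intro x x' e1 e2
    have e3 := h.inj (x * x'⁻¹) (by rw [map_mul, map_inv, e1, mul_inv_cancel])
      (by rw [map_mul, map_inv, e2, mul_inv_cancel])
    exact mul_inv_eq_one.1 e3
  have hex : ∀ y : FibJ p j, ∃ x : G', u x = s (fibB p j y) ∧ v x = fibH p j y := by
    intro y
    refine h.surj _ _ ?_
    show p (q (s (fibB p j y))) = _
    rw [hs]
    exact y.2
  choose f hf1 hf2 using hex
  refine ⟨{ toFun := f, map_one' := ?_, map_mul' := ?_ }, ?_⟩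
  · refine huniq _ _ ?_ ?_
    · rw [hf1, map_one, map_one, map_one]
    · rw [hf2, map_one, map_one]
  · intro y z
    refine huniq _ _ ?_ ?_
    · rw [hf1, map_mul, map_mul, map_mul, hf1, hf1]
    · rw [hf2, map_mul, map_mul, hf2, hf2]
  · intro y
    show q' (f y) = y
    refine Subtype.ext (Prod.ext ?_ ?_)
    · show fibB p j (q' (f y)) = fibB p j y
      rw [h2, hf1, hs]
    · show fibH p j (q' (f y)) = fibH p j y
      exact (DFunLike.congr_fun h1 (f y)).trans (hf2 y)

end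

/-- The fibre product of a tower `p : G → A` with `j : Gal(E/L) → A` is a tower over `Gal(E/L)`. -/
theorem RTow.fib {k K L E : Type} [Field k] [Field K] [Field L] [Field E] [Algebra k K]
    [Algebra L E] [Algebra K E] {A : Type} [Group A] {γ : A →* (K ≃ₐ[k] K)} {G : Type} [Group G]
    {p : G →* A} (hp : RTow γ p) (j : (E ≃ₐ[L] E) →* A)
    (hj : ∀ σ a, σ (algebraMap K E a) = algebraMap K E (γ (j σ) a)) {G' : Type} [Group G']
    {u : G' →* G} {α' : G' →* (E ≃ₐ[L] E)} (h : IsFibJ p j u α') : RTower α' := by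
  induction hp generalizing G' with
  | @base G _ p hb =>
    refine RTower.gal α' ⟨?_, ?_⟩
    · intro x y hxy
      have h1 : α' (x * y⁻¹) = 1 := by rw [map_mul, map_inv, hxy, mul_inv_cancel]
      have h2 : p (u (x * y⁻¹)) = 1 := by rw [h.comp, h1, map_one]
      have h3 : u (x * y⁻¹) = 1 := hb.1 (by rw [h2, map_one])
      exact mul_inv_eq_one.1 (h.inj _ h3 h1)
    · intro σ
      obtain ⟨g, hg⟩ := hb.2 (j σ)
      obtain ⟨x, -, hx⟩ := h.surj g σ hg
      exact ⟨x, hx⟩
  | @refl G B _ _ p q hq n ρ Z hr hp ih =>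
    obtain ⟨q', e1, e2, e3, e4⟩ := Fib_q h
    rw [← e1]
    refine RTower.refl (fibH p j) q' (e3 hq) _ _ (hr.pull (fun x a => ?_) e4) (ih (isFibJ p j))
    rw [hj]
    congr 2
    have h1 : j (fibH p j (q' x)) = p (fibB p j (q' x)) := ((isFibJ p j).comp (q' x)).symm
    show γ (j (fibH p j (q' x))) = γ (p (q (u x)))
    rw [h1, e2]
  | @alt G B _ _ p q hq hN hp ih =>
    obtain ⟨q', e1, e2, e3, e4⟩ := Fib_q h
    rw [← e1]
    have hiso : NIso q.ker q'.ker u := by
      refine ⟨fun x hx => ?_, fun x hx hp => ?_, fun g hg => ?_⟩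
      · exact MonoidHom.mem_ker.2 (e4.map x (MonoidHom.mem_ker.1 hx))
      · exact e4.inj x (MonoidHom.mem_ker.1 hx) hp
      · obtain ⟨x, hx1, hx2⟩ := e4.surj g (MonoidHom.mem_ker.1 hg)
        exact ⟨x, MonoidHom.mem_ker.2 hx1, hx2⟩
    exact RTower.alt (fibH p j) q' (e3 hq)
      (hN.imp (fun hN => AltSeries.pull hiso hN) fun hN => Tower.pull hN hiso) (ih (isFibJ p j))
  | @dbl G B _ _ p q hq n N hn hN φ hφ hp ih =>
    obtain ⟨q', e1, e2, e3, e4⟩ := Fib_q h
    rw [← e1]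
    exact RTower.dbl (fibH p j) q' (e3 hq) n N hn hN (φ.comp u) (KerDbl.pull hφ e4)
      (ih (isFibJ p j))
  | @spl G B _ _ p q s hs n hn χ π hk hp ih =>
    obtain ⟨q', e1, e2, e3, e4⟩ := Fib_q h
    obtain ⟨s', hs'⟩ := Fib_s h e1 e2 hs
    obtain ⟨χ', hχ'⟩ := KerAlt.pull hk e4
    rw [← e1]
    exact RTower.spl (fibH p j) q' s' hs' n hn χ' (π.comp u) hχ' (ih (isFibJ p j))

theorem RTow.towJ {k K : Type} [Field k] [Field K] [Algebra k K] {A G : Type} [Group A] [Group G]
    {γ : A →* (K ≃ₐ[k] K)} {p : G →* A} (hp : RTow γ p) : TowJ γ p :=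
  fun _ _ _ _ j hj _ _ _ _ h => hp.fib j hj h

/-- the fibre products over `L` -/
theorem RTow.towJ_L {k K L E : Type} [Field k] [Field K] [Field L] [Field E] [Algebra k K]
    [Algebra L E] [Algebra K E] {A G : Type} [Group A] [Group G] {γ : A →* (K ≃ₐ[k] K)}
    {p : G →* A} (hp : RTow γ p) {A' G' : Type} [Group A'] [Group G'] {a : A' →* A}
    {g : G' →* G} {γ' : A' →* (E ≃ₐ[L] E)} {p' : G' →* A'} (hA : IsFib γ a γ')
    (hG : IsFibJ p a g p') : TowJ γ' p' := by
  intro E' _ _ _ j hj G'' _ u α' h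
  letI : Algebra K E' := ((algebraMap E E').comp (algebraMap K E)).toAlgebra
  refine hp.fib (a.comp j) (fun σ x => ?_) (u := g.comp u) (α' := α') ⟨fun x => ?_, fun x h1 h2 => ?_,
    fun y σ hy => ?_⟩
  · have h1 := hj σ (algebraMap K E x)
    rw [hA.comp] at h1
    exact h1
  · show p (g (u x)) = a (j (α' x))
    rw [hG.comp, h.comp]
  · refine h.inj x (hG.inj _ h1 ?_) h2
    rw [h.comp, h2, map_one]
  · obtain ⟨x, hx1, hx2⟩ := hG.surj y (j σ) hy
    obtain ⟨z, hz1, hz2⟩ := h.surj x σ hx2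
    refine ⟨z, ?_, hz2⟩
    show g (u z) = y
    rw [hz1, hx1]

end NF83
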