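import Pool.Agent.H.MP_83e36b_nt.rd.WDef
import Pool.Agent.H.MP_83e36b_nt.rr.Fin

/-! Lifting of homomorphisms of Galois groups through towers. -/

set_option autoImplicit false

open NumberField IsDedekindDomain

namespace NF83

open CM83 NR83 WA83 DC83

/-- the fibre product -/
private def LiftF {B A H : Type} [Group B] [Group A] [Group H] (p : B →* A) (j : H →* A) :
    Subgroup (B × H) where
  carrier := {x | p x.1 = j x.2}
  one_mem' := by simp
  mul_mem' := by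
    intro x y hx hy
    show p (x.1 * y.1) = j (x.2 * y.2)
    rw [map_mul, map_mul]
    exact congrArg₂ (· * ·) hx hy
  inv_mem' := by
    intro x hx
    show p (x.1)⁻¹ = j (x.2)⁻¹
    rw [map_inv, map_inv]
    exact congrArg _ hx

/-- a finite Galois extension through which `β₀` factors -/
private theorem Lift_ext {kk : Type} [Field kk] [CharZero kk] {K : Type} [Field K] [Algebra kk K]
    [FiniteDimensional kk K] {A : Type} [Group A] {γ : A →* (K ≃ₐ[kk] K)} (κ : K →+* Kb kk)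
    (hκ : κ.comp (algebraMap kk K) = algebraMap kk (Kb kk))
    (β₀ : (Kb kk ≃ₐ[kk] Kb kk) →* A) (hβc : Cts β₀) (hβκ : ∀ τ x, τ (κ x) = κ (γ (β₀ τ) x)) :
    ∃ (E : Type) (_ : Field E) (_ : Algebra kk E) (_ : FiniteDimensional kk E)
      (_ : IsGalois kk E) (_ : Algebra K E) (κ₁ : E →+* Kb kk) (j : (E ≃ₐ[kk] E) →* A)
      (r : (Kb kk ≃ₐ[kk] Kb kk) →* (E ≃ₐ[kk] E)),
      κ₁.comp (algebraMap kk E) = algebraMap kk (Kb kk) ∧ Cts r ∧ (∀ τ x, κ₁ (r τ x) = τ (κ₁ x)) ∧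
      (∀ τ, j (r τ) = β₀ τ) ∧ ∀ σ a, σ (algebraMap K E a) = algebraMap K E (γ (j σ) a) := by
  have hal : Algebra.IsAlgebraic kk (Kb kk) := AlgebraicClosure.isAlgebraic kk
  have hac : IsAlgClosure kk (Kb kk) := ⟨inferInstance, inferInstance⟩
  have hno : Normal kk (Kb kk) := IsAlgClosure.normal kk (Kb kk)
  obtain ⟨E₀, hE₀, hβ1⟩ := hβc
  obtain ⟨f, hf⟩ : ∃ f : K →ₐ[kk] Kb kk, ∀ x, f x = κ x :=
    ⟨{ κ with commutes' := fun x => RingHom.congr_fun hκ x }, fun x => rfl⟩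
  have h1 : FiniteDimensional kk f.fieldRange := by
    have e : K ≃ₐ[kk] f.fieldRange := AlgEquiv.ofInjectiveField f
    exact e.toLinearEquiv.finiteDimensional
  obtain ⟨E₁, hE₁⟩ : ∃ E₁ : IntermediateField kk (Kb kk), E₁ = E₀ ⊔ f.fieldRange := ⟨_, rfl⟩
  have h2 : FiniteDimensional kk E₁ := by
    rw [hE₁]
    exact IntermediateField.finiteDimensional_sup _ _
  obtain ⟨E, hE⟩ : ∃ E : IntermediateField kk (Kb kk), E = IntermediateField.normalClosure kk E₁ (Kb kk) :=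
    ⟨_, rfl⟩
  have h3 : FiniteDimensional kk E := by
    rw [hE]
    exact normalClosure.is_finiteDimensional kk E₁ (Kb kk)
  have h4 : Normal kk E := by
    rw [hE]
    exact normalClosure.normal kk E₁ (Kb kk)
  have h5 : IsGalois kk E := ⟨⟩
  have hle : E₁ ≤ E := by
    rw [hE]
    exact IntermediateField.le_normalClosure E₁
  have hf1 : ∀ x, f x ∈ E := fun x => hle (by
    rw [hE₁]
    exact (le_sup_right : f.fieldRange ≤ E₀ ⊔ f.fieldRange) ⟨x, rfl⟩)
  have h0 : ∀ x ∈ E₀, x ∈ E := fun x hx => hle (by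
    rw [hE₁]
    exact (le_sup_left : E₀ ≤ E₀ ⊔ f.fieldRange) hx)
  obtain ⟨r, hr⟩ : ∃ r : (Kb kk ≃ₐ[kk] Kb kk) →* (E ≃ₐ[kk] E), r = AlgEquiv.restrictNormalHom E :=
    ⟨_, rfl⟩
  have hrs : Function.Surjective r := by
    rw [hr]
    exact AlgEquiv.restrictNormalHom_surjective (Kb kk)
  have hrx : ∀ τ (x : E), ((r τ x : E) : Kb kk) = τ (x : Kb kk) := by
    intro τ x
    rw [hr]
    exact AlgEquiv.restrictNormal_commutes τ E x
  have hker : r.ker ≤ β₀.ker := by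
    intro τ hτ
    refine MonoidHom.mem_ker.2 (hβ1 τ fun x hx => ?_)
    have e1 := hrx τ ⟨x, h0 x hx⟩
    rw [MonoidHom.mem_ker.1 hτ] at e1
    exact e1.symm
  obtain ⟨j, hj⟩ : ∃ j : (E ≃ₐ[kk] E) →* A, ∀ τ, j (r τ) = β₀ τ := by
    refine ⟨r.liftOfSurjective hrs ⟨β₀, hker⟩, fun τ => ?_⟩
    exact MonoidHom.liftOfRightInverse_comp_apply r _ _ ⟨β₀, hker⟩ τ
  let iKE : Algebra K E := (RingHom.codRestrict κ E.toSubring (fun x => by
    rw [← hf]
    exact hf1 x)).toAlgebra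
  refine ⟨E, inferInstance, inferInstance, h3, h5, iKE, E.val.toRingHom, j, r, rfl, ?_,
    fun τ x => hrx τ x, hj, ?_⟩
  · refine ⟨E, h3, fun τ hτ => AlgEquiv.ext fun x => Subtype.ext ?_⟩
    rw [hrx]
    exact hτ x x.2
  · intro σ a
    obtain ⟨τ, rfl⟩ := hrs σ
    refine Subtype.ext ?_
    rw [hrx, hj]
    exact hβκ τ a

/-- from the relative Grunwald problem for the fibre products to the lifting problem -/
private theorem Lift_of {kk : Type} [Field kk] [CharZero kk] [PlSys kk] {K : Type} [Field K]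
    [Algebra kk K] [FiniteDimensional kk K] {A G : Type} [Group A] [Group G] [Finite G]
    {γ : A →* (K ≃ₐ[kk] K)} {p : G →* A} (hps : Function.Surjective p)
    (hE : ∀ (E : Type) [Field E] [Algebra kk E] [FiniteDimensional kk E] [IsGalois kk E]
      [Algebra K E] (j : (E ≃ₐ[kk] E) →* A),
      (∀ σ a, σ (algebraMap K E a) = algebraMap K E (γ (j σ) a)) →
      ∀ (G' : Type) [Group G'] [Finite G'] (u : G' →* G) (α' : G' →* (E ≃ₐ[kk] E)),
        IsFibJ p j u α' → Function.Surjective α' → RelGr kk α') : RelLift kk γ p := by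
  intro S κ hκ ι hι β₀ hβc hβκ ρ hρ hb
  have hal : Algebra.IsAlgebraic kk (Kb kk) := AlgebraicClosure.isAlgebraic kk
  obtain ⟨E, iF, iA, iD, iG, iK, κ₁, j, r, hκ₁, hrc, hrx, hjr, hj⟩ := Lift_ext κ hκ β₀ hβc hβκ
  -- the fibre product
  obtain ⟨u, hu⟩ : ∃ u : LiftF p j →* G, ∀ x, u x = x.1.1 :=
    ⟨(MonoidHom.fst _ _).comp (Subgroup.subtype _), fun x => rfl⟩
  obtain ⟨α', hα⟩ : ∃ α' : LiftF p j →* (E ≃ₐ[kk] E), ∀ x, α' x = x.1.2 :=
    ⟨(MonoidHom.snd _ _).comp (Subgroup.subtype _), fun x => rfl⟩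
  have hfib : IsFibJ p j u α' := by
    refine ⟨fun x => ?_, fun x h1 h2 => ?_, fun g h e => ⟨⟨(g, h), e⟩, hu _, hα _⟩⟩
    · rw [hu, hα]
      exact x.2
    · rw [hu] at h1
      rw [hα] at h2
      exact Subtype.ext (Prod.ext h1 h2)
  have hαs : Function.Surjective α' := by
    intro σ
    obtain ⟨g, hg⟩ := hps (j σ)
    obtain ⟨x, -, hx⟩ := hfib.surj g σ hg
    exact ⟨x, hx⟩
  have hfin : Finite (LiftF p j) := inferInstance
  have hrel : RelGr kk α' := hE E j hj (LiftF p j) u α' hfib hαs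
  -- the local homomorphisms
  choose b hb1 hb2 using hb
  choose g hg using fun v => hps (b v)
  have hres : ∀ v : Pk kk, ∃ s : (Ok v ≃ₐ[Cp v] Ok v) →* (Kb kk ≃ₐ[kk] Kb kk),
      ∀ τ x, ι v (s τ x) = τ (ι v x) := fun v => exists_res (em v) (ι v) (hι v)
  choose rv hrv using hres
  have hmem : ∀ v τ, p (g v * ρ v τ * (g v)⁻¹) = j (r (rv v τ)) := by
    intro v τ
    rw [map_mul, map_mul, map_inv, hg, hjr, hb2 v τ (rv v τ) (hrv v τ)]
  obtain ⟨ρ', hρ'⟩ : ∃ ρ' : ∀ v : Pk kk, (Ok v ≃ₐ[Cp v] Ok v) →* LiftF p j,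
      ∀ v τ, ρ' v τ = ⟨(g v * ρ v τ * (g v)⁻¹, r (rv v τ)), hmem v τ⟩ := by
    refine ⟨fun v => MonoidHom.mk' (fun τ => ⟨(g v * ρ v τ * (g v)⁻¹, r (rv v τ)), hmem v τ⟩) ?_,
      fun v τ => rfl⟩
    intro τ τ'
    refine Subtype.ext (Prod.ext ?_ ?_)
    · show g v * ρ v (τ * τ') * (g v)⁻¹ = (g v * ρ v τ * (g v)⁻¹) * (g v * ρ v τ' * (g v)⁻¹)
      rw [map_mul]
      group
    · show r (rv v (τ * τ')) = r (rv v τ) * r (rv v τ')
      rw [map_mul, map_mul]
  have hρ'c : ∀ v, Cts (ρ' v) := by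
    intro v
    refine Cts.of_two (hρ v) (Cts_res (ι v) (hrv v) hrc) (ρ' v) fun τ h1 h2 => ?_
    rw [hρ']
    refine Subtype.ext (Prod.ext ?_ ?_)
    · show g v * ρ v τ * (g v)⁻¹ = 1
      rw [h1, mul_one, mul_inv_cancel]
    · exact h2
  have hcomp : ∀ v τ x, τ (ι v (κ₁ x)) = ι v (κ₁ (α' (ρ' v τ) x)) := by
    intro v τ x
    rw [hα, hρ']
    show τ (ι v (κ₁ x)) = ι v (κ₁ (r (rv v τ) x))
    rw [hrx, hrv]
  obtain ⟨ρ₀, hc₀, h₀, h₁⟩ := hrel S κ₁ hκ₁ ι hι ρ' hρ'c hcomp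
  have hαr : ∀ τ, α' (ρ₀ τ) = r τ := by
    intro τ
    refine AlgEquiv.ext fun x => κ₁.injective ?_
    rw [← h₀, hrx]
  refine ⟨u.comp ρ₀, hc₀.comp u, fun τ => ?_, fun v hv => ?_⟩
  · show p (u (ρ₀ τ)) = β₀ τ
    rw [hfib.comp, hαr, hjr]
  · obtain ⟨g', hg', h2⟩ := h₁ v hv
    refine ⟨u g' * g v, ?_, fun τ τ₀ hτ => ?_⟩
    · rw [map_mul, hfib.comp, hg', map_one, one_mul, hg, hb1]
    · have e1 : u (ρ' v τ) = g v * ρ v τ * (g v)⁻¹ := by rw [hu, hρ']
      show u (ρ₀ τ₀) = _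
      rw [h2 τ τ₀ hτ, map_mul, map_mul, map_inv, e1]
      group
/-- Proof: `hβc : Cts β₀` gives a finite extension `E₀` of `k` in `Kb k`; let `E` be a finite Galois
extension of `k` in `Kb k` which contains `E₀` and `κ(K)` (the normal closure of the compositum;
`IntermediateField.normalClosure`), so `β₀` is trivial on the automorphisms which are trivial on `E`, and
`β₀ τ = j (τ|_E)` for a homomorphism `j : Gal(E/k) → A` (`AlgEquiv.restrictNormalHom` is surjective).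
`K → E` by `κ`; `hj : σ (algebraMap K E a) = algebraMap K E (γ (j σ) a)` from `hβκ`.  Let `G'` be the
subgroup of `(g, σ)` in `G × Gal(E/k)` with `p g = j σ`, `u`, `α'` the two projections: `IsFibJ p j u α'`,
so `RTower α'` (`hp`); `α'` is surjective as `p` is, so `fixF α' = ⊥`, and `main_rtower` (rr/Fin.lean),
`rel_of_fin` (rg/FinG.lean) give `RelGr k α'` for `plSys k T`.  Choose `b v = p (g v)`, and let
`r v : Gal(Ok v / Cp v) → Gal(Kb k / k)` be the restriction (`exists_res`, nf/Res.lean):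
`β₀ (r v τ) = p (g v * ρ v τ * (g v)⁻¹)`.  Apply `RelGr` to the inclusion `κ₁ : E → Kb k`, to `ι` and to
`ρ' v τ = (g v * ρ v τ * (g v)⁻¹, (r v τ)|_E)` in `G'` (continuity: `Cts.of_two`, `Cts_res` in nf/Res.lean;
see rf/GrunR.lean, tn/GrunN.lean).  It gives `ρ₀' : Gal(Kb k / k) → G'`, `ρ₀ = u ∘ ρ₀'`;
`α' (ρ₀' τ) = τ|_E` because `κ₁` is injective, so `p (ρ₀ τ) = j (τ|_E) = β₀ τ`; the conjugating elements
are `u (g') * g v`. -/
theorem rel_lift {k : Type} [Field k] [NumberField k] {K : Type} [Field K] [Algebra k K]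
    [FiniteDimensional k K] [IsGalois k K] {A G : Type} [Group A] [Group G] [Finite G]
    {γ : A →* (K ≃ₐ[k] K)} {p : G →* A} (hps : Function.Surjective p) (hp : TowJ γ p)
    (T : Finset (HeightOneSpectrum (𝓞 k))) : @RelLift k _ (plSys k T) K _ _ A G _ _ γ p := by
  let iP : PlSys k := plSys k T
  refine Lift_of hps fun E _ _ _ _ _ j hj G' _ _ u α' hfib hαs => ?_
  have hfix : fixF α' = ⊥ := by
    have h1 : α'.range = ⊤ := MonoidHom.range_eq_top.2 hαs
    show IntermediateField.fixedField α'.range = ⊥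
    rw [h1, IsGalois.fixedField_top]
  exact rel_of_fin hαs (main_rtower α' hfix (hp E j hj G' u α' hfib)) T

end NF83
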