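import Pool.Agent.H.MP_83e36b_nt.rd.Eps
import Pool.Agent.H.MP_83e36b_nt.rd.Lift
import Pool.Agent.H.MP_83e36b_nt.rd.NormR

/-! The reduction theorem over a number field. -/

set_option autoImplicit false

open Polynomial NumberField IsDedekindDomain

namespace NF83

open CM83 NR83 WA83 DC83

private theorem Main_aeval {k F : Type} [Field k] [Field F] [Algebra k F] (H : IntermediateField k F)
    {r : ℕ} (w : Fin r → H) (h : MvPolynomial (Fin r) k) :
    ((MvPolynomial.aeval w h : H) : F) = MvPolynomial.aeval (fun j => (w j : F)) h := by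
  have h1 : (H.val.comp (MvPolynomial.aeval w)) = MvPolynomial.aeval fun j => (w j : F) := by
    apply MvPolynomial.algHom_ext
    intro j
    simp
  exact DFunLike.congr_fun h1 h

/-- Main theorem. -/
theorem main_D {k : Type} [Field k] [NumberField k] {K : Type} [Field K] [Algebra k K] {A G : Type}
    [Group A] [Finite A] [Group G] [Finite G] (γ : A →* (K ≃ₐ[k] K)) (hfix : fixF γ = ⊥)
    (p : G →* A) (hps : Function.Surjective p) (hp : TowJ γ p) {d e' : ℕ}
    (β : G →* (RF K d ≃ₐ[k] RF K d)) (hβ : SemiLin (γ.comp p) β)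
    (δ : A →* (RF K e' ≃ₐ[k] RF K e')) (hδ : SemiLin γ δ) (φ : RF K e' →ₐ[K] RF K d)
    (hφ : ∀ g z, β g (φ z) = φ (δ (p g) z)) {m : ℕ} {f g : (MvPolynomial (Fin m) k)[X]}
    {F : Type} [Field F] [Algebra k F] {ξ : Fin m → F} {η : F} (h : Generic f F ξ η)
    (hg : evP (algebraMap k F) ξ η g ≠ 0) {r : ℕ} (w : Fin r → fixF δ)
    (hw : IntermediateField.adjoin k (Set.range w) = ⊤)
    (c : Fin r → (MvPolynomial (Fin m) k)[X]) (N : ℕ) (w' : Fin r → fixF β)
    (hw' : ∀ j, (w' j : RF K d) = φ (w j))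
    (hF : StIsoRel k (fun j => evP (algebraMap k F) ξ η (c j) / evP (algebraMap k F) ξ η g ^ N) w') :
    WARel k f g (PtsA k w k) c N := by
  obtain ⟨hK1, hK2, hγs⟩ := gal_of_fixR hfix
  obtain ⟨a, b, e₁, he₁⟩ := hF
  obtain ⟨d', β', inc, e₂, hβ', hinc, he₂⟩ := tr_normR (γ.comp p) β hβ b
  have hcount : Countable k := countable_numberField k
  have hV : PtsA k w k = PtsA k (fun j => (w j : RF K e')) k := by
    ext x
    refine forall_congr' fun q => ?_
    rw [← Main_aeval, ZeroMemClass.coe_eq_zero]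
  have hw'' : fixF δ ≤ IntermediateField.adjoin k (Set.range fun j => (w j : RF K e')) := by
    have h1 : (IntermediateField.adjoin k (Set.range w)).map (fixF δ).val =
        IntermediateField.adjoin k (Set.range fun j => (w j : RF K e')) := by
      rw [IntermediateField.adjoin_map]
      congr 1
      ext x
      simp
    rw [← h1, hw]
    intro x hx
    exact ⟨⟨x, hx⟩, trivial, rfl⟩
  rw [hV]
  refine warel_of_eps fun T => ?_
  letI iP : PlSys k := plSys k T
  haveI : Finite (Pk k) := inferInstanceAs (Finite (InfinitePlace k ⊕ {v // v ∈ T}))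
  refine eps_rel hγs hps (rel_lift hps hp T) β' hβ' δ hδ.inj (algebraMap K (RF K e')) ?_
    (fun g x => hδ.coeff g x) ((inc : RF K d →+* RF K d').comp (φ : RF K e' →+* RF K d)) ?_ ?_ h hg
    (fun j => (w j : RF K e')) (fun j => (w j).2) hw'' c N (e₁.trans e₂) ?_
  · exact (IsScalarTower.algebraMap_eq k K (RF K e')).symm
  · intro x
    show inc (φ (algebraMap K (RF K e') x)) = _
    rw [φ.commutes, inc.commutes]
  · intro g z
    show β' g (inc (φ z)) = inc (φ (δ (p g) z))
    rw [hinc, hφ]
  · intro j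
    show ((e₂ (e₁ _) : fixF β') : RF K d') = inc (φ (w j))
    rw [he₁, he₂, hw']

end NF83
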