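import Pool.Agent.H.MP_83e36b_nt.rd.TDef
import Pool.Agent.H.MP_83e36b_nt.bc.Rfh
import Pool.Agent.H.MP_83e36b_nt.bc.Act

/-! Base change of an equivariant embedding. -/

set_option autoImplicit false

namespace NF83

open CM83 NR83 WA83

private theorem PhiL_xv (K : Type) [Field K] (a : ℕ) :
    AlgebraicIndependent K (fun i : Fin a => xv K i) :=
  (MvPolynomial.algebraicIndependent_X (Fin a) K).map'
    (f := IsScalarTower.toAlgHom K (MvPolynomial (Fin a) K) (RF K a))
    (IsFractionRing.injective (MvPolynomial (Fin a) K) (RF K a))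

private theorem PhiL_lift {P E : Type} [Field P] [Field E] [Algebra P E] {a : ℕ} (u : Fin a → E)
    (hu : AlgebraicIndependent P u) : ∃ f : RF P a →ₐ[P] E, ∀ i, f (xv P i) = u i := by
  have hu' : Function.Injective (MvPolynomial.aeval (R := P) u) := hu
  refine ⟨IsFractionRing.liftAlgHom (K := RF P a) (g := MvPolynomial.aeval u) hu', fun i => ?_⟩
  unfold xv
  rw [IsFractionRing.liftAlgHom_apply, IsFractionRing.lift_algebraMap]
  exact MvPolynomial.aeval_X u i

/-- Proof: the elements `φ (xv K i)` are algebraically independent over `K`, so their images `u i` under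
`rfh (algebraMap K E) d` are algebraically independent over `K`, and over `E` because `E / K` is algebraic
(`AlgebraicIndependent.extendScalars`, see `StI_ind` in bc/StI.lean).  `φ'` is
`IsFractionRing.liftAlgHom` of `MvPolynomial.aeval u` (see `si_core` in nr/SI.lean): linear over `E`,
`φ' (xv E i) = u i`.  The last property by `rfh_ext`.  The equivariance: both sides are homomorphisms in
`z`; `rfh_ext` (for `RF E e'`): on the constants both are `algebraMap (γ' (p' x) a)`; for `z = xv E i =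
rfh (xv K i)`: `β' x (rfh (φ (xv K i))) = rfh (β (uG x) (φ (xv K i))) = rfh (φ (δ (p (uG x)) (xv K i)))` and
`φ' (δ' (p' x) (rfh (xv K i))) = φ' (rfh (δ (uA (p' x)) (xv K i)))`. -/
theorem exists_phiL {k K L E : Type} [Field k] [Field K] [Field L] [Field E] [Algebra k K]
    [Algebra L E] [Algebra K E] [FiniteDimensional K E] {G A : Type} [Group G] [Group A]
    {p : G →* A} {d e' : ℕ} {β : G →* (RF K d ≃ₐ[k] RF K d)}
    {δ : A →* (RF K e' ≃ₐ[k] RF K e')} (φ : RF K e' →ₐ[K] RF K d)
    (hφ : ∀ g z, β g (φ z) = φ (δ (p g) z)) {G' A' : Type} [Group G'] [Group A']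
    {uG : G' →* G} {uA : A' →* A} {p' : G' →* A'} (hp' : ∀ x, uA (p' x) = p (uG x))
    {γ' : A' →* (E ≃ₐ[L] E)} {β' : G' →* (RF E d ≃ₐ[L] RF E d)}
    (hβ' : SemiLin (γ'.comp p') β')
    (hβι : ∀ x z, β' x (rfh (algebraMap K E) d z) = rfh (algebraMap K E) d (β (uG x) z))
    {δ' : A' →* (RF E e' ≃ₐ[L] RF E e')} (hδ' : SemiLin γ' δ')
    (hδι : ∀ x z, δ' x (rfh (algebraMap K E) e' z) = rfh (algebraMap K E) e' (δ (uA x) z)) :
    ∃ φ' : RF E e' →ₐ[E] RF E d, (∀ x z, β' x (φ' z) = φ' (δ' (p' x) z)) ∧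
      ∀ y, φ' (rfh (algebraMap K E) e' y) = rfh (algebraMap K E) d (φ y) := by
  classical
  let ι : K →+* E := algebraMap K E
  let J : RF K d →ₐ[K] RF E d :=
    { rfh ι d with
      commutes' := fun c => by
        change rfh ι d (algebraMap K (RF K d) c) = algebraMap K (RF E d) c
        rw [rfh_C, IsScalarTower.algebraMap_apply K E (RF E d)] }
  have hJ : ∀ z, J z = rfh ι d z := fun z => rfl
  let Φ : RF K e' →ₐ[K] RF E d := J.comp φ
  have hΦ : ∀ z, Φ z = rfh ι d (φ z) := fun z => rfl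
  have h1 : AlgebraicIndependent K (fun i : Fin e' => Φ (xv K i)) :=
    (PhiL_xv K e').map' (f := Φ) (RingHom.injective (Φ : RF K e' →+* RF E d))
  have h2 : AlgebraicIndependent E (fun i : Fin e' => Φ (xv K i)) := h1.extendScalars E
  obtain ⟨φ', hφX⟩ := PhiL_lift (fun i : Fin e' => Φ (xv K i)) h2
  have hlast : ∀ y, φ' (rfh ι e' y) = rfh ι d (φ y) := by
    have h3 : ((φ' : RF E e' →ₐ[E] RF E d) : RF E e' →+* RF E d).comp (rfh ι e') =
        (rfh ι d).comp ((φ : RF K e' →ₐ[K] RF K d) : RF K e' →+* RF K d) := by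
      refine rfh_ext (fun a => ?_) (fun i => ?_)
      · rw [RingHom.comp_apply, RingHom.comp_apply, rfh_C]
        change φ' (algebraMap E (RF E e') (ι a)) = rfh ι d (φ (algebraMap K (RF K e') a))
        rw [φ'.commutes, φ.commutes, rfh_C]
      · rw [RingHom.comp_apply, RingHom.comp_apply, rfh_X]
        exact hφX i
    intro y
    exact congrArg (fun f => f y) h3
  refine ⟨φ', fun x => ?_, hlast⟩
  have h4 : ((β' x : RF E d ≃ₐ[L] RF E d) : RF E d →+* RF E d).comp
        ((φ' : RF E e' →ₐ[E] RF E d) : RF E e' →+* RF E d) =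
      ((φ' : RF E e' →ₐ[E] RF E d) : RF E e' →+* RF E d).comp
        ((δ' (p' x) : RF E e' ≃ₐ[L] RF E e') : RF E e' →+* RF E e') := by
    refine rfh_ext (fun a => ?_) (fun i => ?_)
    · rw [RingHom.comp_apply, RingHom.comp_apply]
      change β' x (φ' (algebraMap E (RF E e') a)) = φ' (δ' (p' x) (algebraMap E (RF E e') a))
      rw [φ'.commutes, hβ'.coeff, hδ'.coeff, φ'.commutes, MonoidHom.comp_apply]
    · rw [RingHom.comp_apply, RingHom.comp_apply]
      change β' x (φ' (xv E i)) = φ' (δ' (p' x) (xv E i))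
      rw [← rfh_X ι i, hlast, hβι, hφ, hδι, hlast, hp']
  intro z
  exact congrArg (fun f => f z) h4

end NF83
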