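import Pool.Agent.H.MP_83e36b_nt.rd.TDef
import Pool.Agent.H.MP_83e36b_nt.bc.Rfh
import Pool.Agent.H.MP_83e36b_nt.bc.GenL

/-! Base change of the generators of the invariants and of the points. -/

set_option autoImplicit false

namespace NF83

open CM83 NR83 WA83

private theorem PtsL_dec {k L : Type} [Field k] [Field L] [Algebra k L] {n : ℕ}
    (b : Module.Basis (Fin n) k L) {r : ℕ} (q : MvPolynomial (Fin r) L) :
    ∃ a : Fin n → MvPolynomial (Fin r) k,
      q = ∑ i, MvPolynomial.C (b i) * MvPolynomial.map (algebraMap k L) (a i) := by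
  induction q using MvPolynomial.induction_on' with
  | add p q hp hq =>
    obtain ⟨p', hp⟩ := hp
    obtain ⟨q', hq⟩ := hq
    refine ⟨fun i => p' i + q' i, ?_⟩
    rw [hp, hq, ← Finset.sum_add_distrib]
    refine Finset.sum_congr rfl fun i _ => ?_
    rw [map_add, mul_add]
  | monomial s c =>
    refine ⟨fun i => MvPolynomial.monomial s (b.repr c i), ?_⟩
    have h1 : ∀ i, MvPolynomial.C (b i) * MvPolynomial.map (algebraMap k L)
        (MvPolynomial.monomial s (b.repr c i)) =
        MvPolynomial.monomial s (b.repr c i • b i) := by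
      intro i
      rw [MvPolynomial.map_monomial, MvPolynomial.C_mul_monomial, Algebra.smul_def, mul_comm]
    rw [Finset.sum_congr rfl fun i _ => h1 i, ← map_sum, b.sum_repr]

/-- Proof: `fixF δ'` is generated over `L` by the `j y`, `y ∈ H` (`hfix`), and every `y ∈ H` is in
`adjoin k (range w)`, so `j y` is in the subfield generated by `L` and the `j (w i)`; transfer to the
subtype (`IntermediateField.adjoin_induction`). -/
theorem wL_top {k L H M : Type} [Field k] [Field L] [Field H] [Field M] [Algebra k L] [Algebra k H]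
    [Algebra L M] [Algebra k M] [IsScalarTower k L M] (j : H →ₐ[k] M) (H' : IntermediateField L M)
    (hfix : H' = IntermediateField.adjoin L (Set.range j)) {r : ℕ} (w : Fin r → H)
    (hw : IntermediateField.adjoin k (Set.range w) = ⊤) (w' : Fin r → H')
    (hw' : ∀ i, (w' i : M) = j (w i)) : IntermediateField.adjoin L (Set.range w') = ⊤ := by
  have hS : (H'.val '' Set.range w') = Set.range fun i => j (w i) := by
    rw [← Set.range_comp]
    exact congrArg Set.range (funext fun i => hw' i)
  have hQ : H' ≤ IntermediateField.adjoin L (Set.range fun i => j (w i)) := by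
    rw [hfix, IntermediateField.adjoin_le_iff]
    rintro _ ⟨z, rfl⟩
    have hz : z ∈ IntermediateField.adjoin k (Set.range w) := by
      rw [hw]
      trivial
    have hle : IntermediateField.adjoin k (Set.range w) ≤
        IntermediateField.comap j ((IntermediateField.adjoin L
          (Set.range fun i => j (w i))).restrictScalars k) := by
      rw [IntermediateField.adjoin_le_iff]
      rintro _ ⟨i, rfl⟩
      exact IntermediateField.subset_adjoin L _ ⟨i, rfl⟩
    exact hle hz
  rw [eq_top_iff]
  intro z _
  have h1 : (z : M) ∈ IntermediateField.map H'.val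
      (IntermediateField.adjoin L (Set.range w')) := by
    rw [IntermediateField.adjoin_map, hS]
    exact hQ z.2
  obtain ⟨y, hy, hyz⟩ := h1
  have h2 : y = z := Subtype.ext hyz
  rw [← h2]
  exact hy

/-- Proof: let `h` be a polynomial over `L` with `h(w') = 0`, `b` a basis of `L` over `k`:
`h = ∑ b_i h_i` with `h_i` over `k` (see `GenL_dec` in bc/GenL.lean), so `∑ j (h_i(w)) b_i = 0`, so
`h_i(w) = 0` (`hdis`), `h_i(a) = 0` and `h(a) = 0`. -/
theorem ptsA_L {k L H M : Type} [Field k] [Field L] [Field H] [Field M] [Algebra k L] [Algebra k H]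
    [Algebra L M] [Algebra k M] [IsScalarTower k L M] [FiniteDimensional k L] (j : H →ₐ[k] M)
    (hdis : ∀ (n : ℕ) (b : Fin n → L), LinearIndependent k b → ∀ c : Fin n → H,
      ∑ i, j (c i) * algebraMap L M (b i) = 0 → ∀ i, c i = 0)
    (H' : IntermediateField L M) {r : ℕ} (w : Fin r → H) (w' : Fin r → H')
    (hw' : ∀ i, (w' i : M) = j (w i)) : PtsA k w L ⊆ PtsA L w' L := by
  intro a ha h hh
  have b := Module.finBasis k L
  obtain ⟨q, hq⟩ := PtsL_dec b h
  have h1 : MvPolynomial.aeval (fun i => j (w i)) h = (0 : M) := by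
    have h2 : (fun i => j (w i)) = fun i => H'.val (w' i) := funext fun i => (hw' i).symm
    rw [h2, ← MvPolynomial.comp_aeval_apply, hh, map_zero]
  have h3 : ∑ i, j (MvPolynomial.aeval w (q i)) * algebraMap L M (b i) = 0 := by
    rw [← h1, hq, map_sum]
    refine Finset.sum_congr rfl fun i _ => ?_
    rw [map_mul, MvPolynomial.aeval_map_algebraMap, mul_comm]
    congr 1
    · exact (MvPolynomial.aeval_C _ _).symm
    · exact MvPolynomial.comp_aeval_apply w j (q i)
  have h4 := hdis _ b b.linearIndependent _ h3
  rw [hq, map_sum]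
  refine Finset.sum_eq_zero fun i _ => ?_
  rw [map_mul, MvPolynomial.aeval_map_algebraMap, ha (q i) (h4 i), mul_zero]

end NF83
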