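import Pool.Agent.H.MP_83e36b_nt.rd.SRel
import Pool.Agent.H.MP_83e36b_nt.bc.StI

/-! Base change of a stable isomorphism with given elements. -/

set_option autoImplicit false

namespace NF83

open CM83 NR83 WA83

private theorem StIR_mem {A W L : Type} [Field A] [Field W] [Field L] [Algebra L W] {n : ℕ}
    (φ : RF A n →+* W) (N : IntermediateField L W)
    (hC : ∀ c, φ (algebraMap A (RF A n) c) ∈ N) (hX : ∀ i, φ (xv A i) ∈ N) (w : RF A n) :
    φ w ∈ N := by
  have h1 : ∀ p : MvPolynomial (Fin n) A,
      φ (algebraMap (MvPolynomial (Fin n) A) (RF A n) p) ∈ N := by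
    intro p
    induction p using MvPolynomial.induction_on with
    | C c => exact hC c
    | add p q hp hq =>
      rw [map_add, map_add]
      exact N.add_mem hp hq
    | mul_X p i hp =>
      rw [map_mul, map_mul]
      exact N.mul_mem hp (hX i)
  obtain ⟨p, q, _, rfl⟩ := IsFractionRing.div_surjective (MvPolynomial (Fin n) A) w
  rw [map_div₀]
  exact N.div_mem (h1 p) (h1 q)

private theorem StIR_core {L A W : Type} [Field L] [Field A] [Field W] [Algebra L A] [Algebra L W]
    (ι : A →ₐ[L] W) {n : ℕ} (u : Fin n → W)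
    (hu : Function.Injective (MvPolynomial.eval₂Hom (ι : A →+* W) u))
    (P : IntermediateField L W) (hι : ∀ a, ι a ∈ P) (huP : ∀ i, u i ∈ P)
    (hP : P ≤ IntermediateField.adjoin L (Set.range ι ∪ Set.range u)) {s : ℕ} (z : Fin s → A)
    (zP : Fin s → P) (hz : ∀ j, (zP j : W) = ι (z j)) : StIsoRel L z zP := by
  let ι' : A →ₐ[L] P := ι.codRestrict P.toSubalgebra hι
  letI : Algebra A P := (ι' : A →+* P).toAlgebra
  haveI : IsScalarTower L A P := IsScalarTower.of_algebraMap_eq fun x => (ι'.commutes x).symm
  let u' : Fin n → P := fun i => ⟨u i, huP i⟩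
  have hzz : zP = fun j => algebraMap A P (z j) := funext fun j => Subtype.ext (hz j)
  rw [hzz]
  refine StIsoRel.of_algInd (k := L) (P := A) (E := P) u' ?_ ?_ z
  · intro a b hab
    apply hu
    have key : ∀ c : MvPolynomial (Fin n) A,
        ((MvPolynomial.aeval u' c : P) : W) = MvPolynomial.eval₂Hom (ι : A →+* W) u c := by
      intro c
      induction c using MvPolynomial.induction_on with
      | C c =>
        rw [MvPolynomial.aeval_C, MvPolynomial.eval₂Hom_C]
        rfl
      | add p q hp hq =>
        rw [map_add, map_add, ← hp, ← hq]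
        rfl
      | mul_X p i hp =>
        rw [map_mul, map_mul, ← hp, MvPolynomial.aeval_X, MvPolynomial.eval₂Hom_X']
        rfl
    rw [← key, ← key]
    exact congrArg Subtype.val hab
  · rw [eq_top_iff]
    rintro ⟨z, hz⟩ -
    have h1 : ∃ t ∈ IntermediateField.adjoin A (Set.range u'), (t : W) = z := by
      refine IntermediateField.adjoin_induction L (s := Set.range ι ∪ Set.range u)
        (p := fun z _ => ∃ t ∈ IntermediateField.adjoin A (Set.range u'), (t : W) = z)
        ?_ ?_ ?_ ?_ ?_ (hP hz)
      · rintro _ (⟨a, rfl⟩ | ⟨i, rfl⟩)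
        · exact ⟨algebraMap A P a, IntermediateField.algebraMap_mem _ _, rfl⟩
        · exact ⟨u' i, IntermediateField.subset_adjoin A _ ⟨i, rfl⟩, rfl⟩
      · intro x
        exact ⟨algebraMap A P (algebraMap L A x), IntermediateField.algebraMap_mem _ _,
          ι.commutes x⟩
      · rintro x y - - ⟨a, ha, rfl⟩ ⟨b, hb, rfl⟩
        exact ⟨a + b, add_mem ha hb, rfl⟩
      · rintro x - ⟨a, ha, rfl⟩
        exact ⟨a⁻¹, inv_mem ha, rfl⟩
      · rintro x y - - ⟨a, ha, rfl⟩ ⟨b, hb, rfl⟩
        exact ⟨a * b, mul_mem ha hb, rfl⟩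
    obtain ⟨t, ht, h2⟩ := h1
    have h3 : t = ⟨z, hz⟩ := Subtype.ext h2
    rw [← h3]
    exact ht

private theorem StIR_xv (K : Type) [Field K] (a : ℕ) :
    AlgebraicIndependent K (fun i : Fin a => xv K i) :=
  (MvPolynomial.algebraicIndependent_X (Fin a) K).map'
    (f := IsScalarTower.toAlgHom K (MvPolynomial (Fin a) K) (RF K a))
    (IsFractionRing.injective (MvPolynomial (Fin a) K) (RF K a))

/-- independence over the field generated by `L` and the image of `F` -/
private theorem StIR_ind {k L F W : Type} [Field k] [Field L] [Field F] [Field W] [Algebra k L]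
    [Algebra k F] [Algebra k W] [Algebra L W] [IsScalarTower k L W] [FiniteDimensional k L] {a : ℕ}
    (Φ : RF F a →+* W) (hk : ∀ c : k, Φ (algebraMap F (RF F a) (algebraMap k F c)) = algebraMap k W c)
    (A : IntermediateField L W)
    (hA : A = IntermediateField.adjoin L (Set.range fun y : F => Φ (algebraMap F (RF F a) y))) :
    Function.Injective (MvPolynomial.eval₂Hom (A.val : A →+* W) fun i => Φ (xv F i)) := by
  let θ : F →+* W := Φ.comp (algebraMap F (RF F a))
  letI : Algebra F W := θ.toAlgebra
  haveI : IsScalarTower k F W := IsScalarTower.of_algebraMap_eq fun c => (hk c).symm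
  have hθA : ∀ y, θ y ∈ A := fun y => by
    rw [hA]
    exact IntermediateField.subset_adjoin L _ ⟨y, rfl⟩
  let θ' : F →+* A := θ.codRestrict A.toSubring hθA
  letI : Algebra F A := θ'.toAlgebra
  haveI : IsScalarTower F A W := IsScalarTower.of_algebraMap_eq fun y => rfl
  let Φ' : RF F a →ₐ[F] W := { Φ with commutes' := fun y => rfl }
  have h1 : AlgebraicIndependent F (fun i => Φ (xv F i)) :=
    (StIR_xv F a).map' (f := Φ') Φ.injective
  have halg : ∀ z ∈ A, IsAlgebraic F z := by
    intro z hz
    rw [hA] at hz
    refine IntermediateField.adjoin_induction L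
      (s := Set.range fun y : F => Φ (algebraMap F (RF F a) y))
      (p := fun z _ => IsAlgebraic F z) ?_ ?_ ?_ ?_ ?_ hz
    · rintro _ ⟨y, rfl⟩
      exact isAlgebraic_algebraMap (A := W) y
    · intro x
      have h2 : IsAlgebraic k (algebraMap L W x) :=
        (Algebra.IsAlgebraic.isAlgebraic (R := k) x).algebraMap
      exact h2.tower_top F
    · intro x y _ _ hx hy
      exact hx.add hy
    · intro x _ hx
      exact hx.inv
    · intro x y _ _ hx hy
      exact hx.mul hy
  haveI : Algebra.IsAlgebraic F A := ⟨fun z => by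
    rw [← isAlgebraic_algHom_iff (IsScalarTower.toAlgHom F A W) Subtype.val_injective]
    exact halg _ z.2⟩
  have h3 := h1.extendScalars A
  exact h3

/-- Proof: as `st_L` in bc/StI.lean (copy with its private lemmas, prefix `StIR_`), with
`StIsoRel.of_algInd`, `StIsoRel.symm`, `StIsoRel.trans` instead of those for `StablyIso`.  In the notation
there: the elements `z'` of `A`, `j (e (z))` of `P` and `w'` of `B` have the same images in `RF M r`
(`hzw`, `hjC`). -/
theorem st_LR {k L H M F : Type} [Field k] [Field L] [Field H] [Field M] [Field F] [Algebra k L]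
    [Algebra k H] [Algebra k M] [Algebra k F] [Algebra L M] [IsScalarTower k L M]
    [FiniteDimensional k L] (f : H →ₐ[k] M) {a r : ℕ} (e : RF F a ≃ₐ[k] RF H r) {n : ℕ}
    (z : Fin n → F) (w : Fin n → H)
    (hzw : ∀ j, e (algebraMap F (RF F a) (z j)) = algebraMap H (RF H r) (w j))
    (z' : Fin n → (IntermediateField.adjoin L (Set.range fun y : F =>
        rfh (f : H →+* M) r (e (algebraMap F (RF F a) y))) : IntermediateField L (RF M r)))
    (hz' : ∀ j, (z' j : RF M r) = rfh (f : H →+* M) r (e (algebraMap F (RF F a) (z j))))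
    (w' : Fin n → (IntermediateField.adjoin L (Set.range f) : IntermediateField L M))
    (hw' : ∀ j, (w' j : M) = f (w j)) : StIsoRel L z' w' := by
  let j : RF H r →+* RF M r := rfh (f : H →+* M) r
  have hjC : ∀ c, j (algebraMap H (RF H r) c) = algebraMap M (RF M r) (f c) := fun c =>
    rfh_C (f : H →+* M) c
  have hjX : ∀ i, j (xv H i) = xv M i := fun i => rfh_X (f : H →+* M) i
  let Φ : RF F a →+* RF M r := j.comp (e : RF F a →+* RF H r)
  let P : IntermediateField L (RF M r) := IntermediateField.adjoin L (Set.range j)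
  let A : IntermediateField L (RF M r) := IntermediateField.adjoin L
    (Set.range fun y : F => Φ (algebraMap F (RF F a) y))
  let B : IntermediateField L M := IntermediateField.adjoin L (Set.range f)
  have hkW : ∀ c : k, Φ (algebraMap F (RF F a) (algebraMap k F c)) = algebraMap k (RF M r) c := by
    intro c
    have h1 : algebraMap F (RF F a) (algebraMap k F c) = algebraMap k (RF F a) c :=
      (IsScalarTower.algebraMap_apply k F (RF F a) c).symm
    have h2 : e (algebraMap k (RF F a) c) = algebraMap k (RF H r) c := e.commutes c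
    show j (e _) = _
    rw [h1, h2, IsScalarTower.algebraMap_apply k H (RF H r), hjC, f.commutes,
      ← IsScalarTower.algebraMap_apply k M (RF M r)]
  have hjP : ∀ w, j w ∈ P := fun w => IntermediateField.subset_adjoin L _ ⟨w, rfl⟩
  let zP : Fin n → P := fun i => ⟨j (e (algebraMap F (RF F a) (z i))), hjP _⟩
  have h1 : StIsoRel L (F := A) (M := P) z' zP := by
    refine StIR_core (L := L) (A := A) A.val (fun i => Φ (xv F i)) ?_ P ?_ ?_ ?_ z' zP
      (fun i => (hz' i).symm)
    · exact StIR_ind (k := k) Φ hkW A rfl
    · intro x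
      have h2 : A ≤ P := by
        rw [IntermediateField.adjoin_le_iff]
        rintro _ ⟨y, rfl⟩
        exact hjP _
      exact h2 x.2
    · intro i
      exact hjP _
    · rw [IntermediateField.adjoin_le_iff]
      rintro _ ⟨w, rfl⟩
      obtain ⟨w', rfl⟩ := e.surjective w
      refine StIR_mem Φ _ (fun c => ?_) (fun i => ?_) w'
      · exact IntermediateField.subset_adjoin L _
          (Or.inl ⟨⟨_, IntermediateField.subset_adjoin L _ ⟨c, rfl⟩⟩, rfl⟩)
      · exact IntermediateField.subset_adjoin L _ (Or.inr ⟨i, rfl⟩)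
  have h2 : StIsoRel L (F := B) (M := P) w' zP := by
    let ι : B →ₐ[L] RF M r := (IsScalarTower.toAlgHom L M (RF M r)).comp B.val
    refine StIR_core (L := L) (A := B) ι (fun i => xv M i) ?_ P ?_ ?_ ?_ w' zP
      (fun i => by
        show j (e (algebraMap F (RF F a) (z i))) = algebraMap M (RF M r) (w' i : M)
        rw [hzw, hjC, hw'])
    · have h3 : ∀ p : MvPolynomial (Fin r) B,
          MvPolynomial.eval₂Hom (ι : B →+* RF M r) (fun i => xv M i) p =
            algebraMap (MvPolynomial (Fin r) M) (RF M r)
              (MvPolynomial.map (B.val : B →+* M) p) := by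
        intro p
        induction p using MvPolynomial.induction_on with
        | C c =>
          rw [MvPolynomial.eval₂Hom_C, MvPolynomial.map_C]
          rfl
        | add p q hp hq => rw [map_add, map_add, map_add, hp, hq]
        | mul_X p i hp =>
          rw [map_mul, map_mul, map_mul, hp, MvPolynomial.eval₂Hom_X', MvPolynomial.map_X]
          rfl
      intro p q hpq
      rw [h3, h3] at hpq
      exact MvPolynomial.map_injective _ (B.val : B →+* M).injective
        (IsFractionRing.injective (MvPolynomial (Fin r) M) (RF M r) hpq)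
    · have h4 : B.map (IsScalarTower.toAlgHom L M (RF M r)) ≤ P := by
        rw [IntermediateField.adjoin_map, IntermediateField.adjoin_le_iff]
        rintro _ ⟨_, ⟨h, rfl⟩, rfl⟩
        show algebraMap M (RF M r) (f h) ∈ P
        rw [← hjC]
        exact hjP _
      intro x
      exact h4 ⟨x.1, x.2, rfl⟩
    · intro i
      show xv M i ∈ P
      rw [← hjX]
      exact hjP _
    · rw [IntermediateField.adjoin_le_iff]
      rintro _ ⟨w, rfl⟩
      refine StIR_mem j _ (fun c => ?_) (fun i => ?_) w
      · rw [hjC]
        exact IntermediateField.subset_adjoin L _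
          (Or.inl ⟨⟨_, IntermediateField.subset_adjoin L _ ⟨c, rfl⟩⟩, rfl⟩)
      · rw [hjX]
        exact IntermediateField.subset_adjoin L _ (Or.inr ⟨i, rfl⟩)
  exact h1.trans h2.symm

end NF83
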