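import Pool.Agent.H.MP_83e36b_nt.bc.Com
import Pool.Agent.H.MP_83e36b_nt.bc.Fix
import Pool.Agent.H.MP_83e36b_nt.bc.Dis
import Pool.Agent.H.MP_83e36b_nt.bc.GenL
import Pool.Agent.H.MP_83e36b_nt.rd.Fib
import Pool.Agent.H.MP_83e36b_nt.rd.Main
import Pool.Agent.H.MP_83e36b_nt.rd.StIR
import Pool.Agent.H.MP_83e36b_nt.rd.PhiL
import Pool.Agent.H.MP_83e36b_nt.rd.PtsL

/-! The reduction theorem for the points over all finite extensions. -/

set_option autoImplicit false

open Polynomial NumberField IsDedekindDomain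

namespace NF83

open CM83 NR83 WA83 DC83

/-- `rfh` is linear over the small field -/
private theorem FinLD_alg {k K E : Type} [Field k] [Field K] [Field E] [Algebra k K] [Algebra k E]
    (f : K →+* E) (hf : f.comp (algebraMap k K) = algebraMap k E) (d : ℕ) (c : k) :
    rfh f d (algebraMap k (RF K d) c) = algebraMap k (RF E d) c := by
  rw [IsScalarTower.algebraMap_apply k K (RF K d), rfh_C,
    IsScalarTower.algebraMap_apply k E (RF E d), ← hf]
  rfl

theorem RTow.surj {k K : Type} [Field k] [Field K] [Algebra k K] {A G : Type} [Group A] [Group G]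
    {γ : A →* (K ≃ₐ[k] K)} {p : G →* A} (hp : RTow γ p) : Function.Surjective p := by
  induction hp with
  | base p h => exact h.2
  | refl p q hq ρ Z h hp ih => exact ih.comp hq
  | alt p q hq hN hp ih => exact ih.comp hq
  | dbl p q hq n N hn hN φ hφ hp ih => exact ih.comp hq
  | spl p q s hs n hn χ π h hp ih => exact ih.comp fun b => ⟨s b, hs b⟩

/-- Main theorem, for the points over a number field `L` over `k`. -/
theorem main_DL {k : Type} [Field k] [NumberField k] {K : Type} [Field K] [Algebra k K]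
    {A G : Type} [Group A] [Finite A] [Group G] [Finite G] (γ : A →* (K ≃ₐ[k] K))
    (hfix : fixF γ = ⊥) (p : G →* A) (hp : RTow γ p) {d e' : ℕ}
    (β : G →* (RF K d ≃ₐ[k] RF K d)) (hβ : SemiLin (γ.comp p) β)
    (δ : A →* (RF K e' ≃ₐ[k] RF K e')) (hδ : SemiLin γ δ) (φ : RF K e' →ₐ[K] RF K d)
    (hφ : ∀ g z, β g (φ z) = φ (δ (p g) z)) {m : ℕ} {f g : (MvPolynomial (Fin m) k)[X]}
    {F : Type} [Field F] [Algebra k F] {ξ : Fin m → F} {η : F} (h : Generic f F ξ η)
    (hg : evP (algebraMap k F) ξ η g ≠ 0) {n : ℕ} (w : Fin n → fixF δ)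
    (hw : IntermediateField.adjoin k (Set.range w) = ⊤)
    (c : Fin n → (MvPolynomial (Fin m) k)[X]) (N : ℕ) (w' : Fin n → fixF β)
    (hw' : ∀ j, (w' j : RF K d) = φ (w j))
    (hF : StIsoRel k (fun j => evP (algebraMap k F) ξ η (c j) / evP (algebraMap k F) ξ η g ^ N) w')
    (L : Type) [Field L] [NumberField L] [Algebra k L] :
    WARel L (polL k L f) (polL k L g) (PtsA k w L) (fun j => polL k L (c j)) N := by
  have hps := hp.surj
  have hfixα : fixF (γ.comp p) = ⊥ := by rw [fixF_comp γ p hps, hfix]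
  obtain ⟨hK1, hK2, hγs⟩ := gal_of_fixR hfix
  have hαs : Function.Surjective (γ.comp p) := hγs.comp hps
  have hL : FiniteDimensional k L := Module.Finite.of_restrictScalars_finite ℚ k L
  obtain ⟨E, iE, iA1, iA2, iA3, hE1, hE2, hE3, hE4⟩ := exists_common k K L
  have hLE : FiniteDimensional L E := FiniteDimensional.right k L E
  have hKE' : FiniteDimensional K E := FiniteDimensional.right k K E
  have hLG : IsGalois L E := IsGalois.tower_top_of_isGalois k L E
  -- the groups
  have hfibG := isFib (L := L) (E := E) (γ.comp p)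
  have hfibA := isFib (L := L) (E := E) γ
  let pL : Fib L E (γ.comp p) →* Fib L E γ :=
    { toFun := fun x => ⟨(p x.1.1, x.1.2), fun a => x.2 a⟩
      map_one' := Subtype.ext (Prod.ext (map_one p) rfl)
      map_mul' := fun x y => Subtype.ext (Prod.ext (map_mul p _ _) rfl) }
  have hpL1 : ∀ x, fibG L E γ (pL x) = p (fibG L E (γ.comp p) x) := fun x => rfl
  have hpLA : (fibA L E γ).comp pL = fibA L E (γ.comp p) := rfl
  have hfibJ : IsFibJ p (fibG L E γ) (fibG L E (γ.comp p)) pL := by
    refine ⟨fun x => rfl, fun x h1 h2 => hfibG.inj x h1 ?_, fun y z hyz => ?_⟩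
    · have h3 := congrArg (fibA L E γ) h2
      rw [map_one] at h3
      exact h3
    · refine ⟨⟨(y, z.1.2), fun a => ?_⟩, rfl, Subtype.ext (Prod.ext hyz rfl)⟩
      show z.1.2 (algebraMap K E a) = algebraMap K E (γ (p y) a)
      rw [hyz]
      exact z.2 a
  have hT : TowJ (fibA L E γ) pL := hp.towJ_L hfibA hfibJ
  have hpLs : Function.Surjective pL := by
    intro z
    obtain ⟨y, hy⟩ := hps (fibG L E γ z)
    obtain ⟨x, -, hx⟩ := hfibJ.surj y z hy
    exact ⟨x, hx⟩
  -- the restriction to `K`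
  have hres : ∀ σ : E ≃ₐ[L] E, ∃ τ : K ≃ₐ[k] K,
      ∀ a, σ (algebraMap K E a) = algebraMap K E (τ a) := by
    intro σ
    refine ⟨(σ.restrictScalars k).restrictNormal K, fun a => ?_⟩
    exact ((σ.restrictScalars k).restrictNormal_commutes K a).symm
  have hγL : Function.Surjective (fibA L E γ) := by
    intro σ
    obtain ⟨τ, hτ⟩ := hres σ
    obtain ⟨g, rfl⟩ := hγs τ
    obtain ⟨x, -, hx⟩ := hfibA.surj g σ hτ
    exact ⟨x, hx⟩
  have hfixL' : fixF (fibA L E γ) = ⊥ := by
    rw [eq_bot_iff]
    intro z hz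
    rw [mem_fixF] at hz
    refine (IsGalois.mem_bot_iff_fixed z).2 fun σ => ?_
    obtain ⟨x, rfl⟩ := hγL σ
    exact hz x
  have hfinA : Finite (Fib L E γ) := inferInstance
  have hfinG : Finite (Fib L E (γ.comp p)) := inferInstance
  -- the actions
  obtain ⟨β', hβ', hβι⟩ := exists_act hβ hfibG
  obtain ⟨δ', hδ', hδι⟩ := exists_act hδ hfibA
  obtain ⟨φ', hφ', hφι⟩ := exists_phiL (E := E) φ hφ (uG := fibG L E (γ.comp p))
    (uA := fibG L E γ) (p' := pL) hpL1 (γ' := fibA L E γ) hβ' hβι hδ' hδι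
  have hfixβ := fix_L hβ hfibG hβ' hβι
  have hfixδ := fix_L hδ hfibA hδ' hδι
  obtain ⟨a, r, e, he⟩ := hF
  -- the embedding of the invariants
  have hKE : (algebraMap K E).comp (algebraMap k K) = algebraMap k E :=
    (IsScalarTower.algebraMap_eq k K E).symm
  let f₀ : fixF β →ₐ[k] RF E d :=
    { (rfh (algebraMap K E) d).comp (algebraMap (fixF β) (RF K d)) with
      commutes' := fun c => by
        show rfh (algebraMap K E) d (algebraMap (fixF β) (RF K d) (algebraMap k (fixF β) c)) = _
        rw [← IsScalarTower.algebraMap_apply k (fixF β) (RF K d)]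
        exact FinLD_alg _ hKE d c }
  have hf₀ : (f₀ : fixF β →+* RF E d) =
      (rfh (algebraMap K E) d).comp (algebraMap (fixF β) (RF K d)) := rfl
  have hf₀' : ∀ y : fixF β, f₀ y = rfh (algebraMap K E) d (y : RF K d) := fun y => rfl
  let f₁ : fixF δ →ₐ[k] RF E e' :=
    { (rfh (algebraMap K E) e').comp (algebraMap (fixF δ) (RF K e')) with
      commutes' := fun c => by
        show rfh (algebraMap K E) e' (algebraMap (fixF δ) (RF K e') (algebraMap k (fixF δ) c)) = _
        rw [← IsScalarTower.algebraMap_apply k (fixF δ) (RF K e')]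
        exact FinLD_alg _ hKE e' c }
  have hf₁ : (f₁ : fixF δ →+* RF E e') =
      (rfh (algebraMap K E) e').comp (algebraMap (fixF δ) (RF K e')) := rfl
  have hf₁' : ∀ y : fixF δ, f₁ y = rfh (algebraMap K E) e' (y : RF K e') := fun y => rfl
  have hst : IsScalarTower k L (RF E d) := IsScalarTower.of_algebraMap_eq fun c => by
    rw [IsScalarTower.algebraMap_apply k E (RF E d), IsScalarTower.algebraMap_apply k L E,
      ← IsScalarTower.algebraMap_apply L E (RF E d)]
  have hst' : IsScalarTower k L (RF E e') := IsScalarTower.of_algebraMap_eq fun c => by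
    rw [IsScalarTower.algebraMap_apply k E (RF E e'), IsScalarTower.algebraMap_apply k L E,
      ← IsScalarTower.algebraMap_apply L E (RF E e')]
  have hst2 : IsScalarTower k L (RF (RF E d) r) := IsScalarTower.of_algebraMap_eq fun c => by
    rw [IsScalarTower.algebraMap_apply k (RF E d) (RF (RF E d) r),
      IsScalarTower.algebraMap_apply k L (RF E d),
      ← IsScalarTower.algebraMap_apply L (RF E d) (RF (RF E d) r)]
  let θ : F →ₐ[k] RF (RF E d) r :=
    { ((rfh (f₀ : fixF β →+* RF E d) r).comp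
        (e : RF F a →+* RF (fixF β) r)).comp (algebraMap F (RF F a)) with
      commutes' := fun c => by
        show rfh (f₀ : fixF β →+* RF E d) r (e (algebraMap F (RF F a) (algebraMap k F c))) = _
        rw [← IsScalarTower.algebraMap_apply k F (RF F a), AlgEquiv.commutes]
        refine FinLD_alg _ ?_ r c
        ext c
        exact f₀.commutes c }
  have hθ : ∀ y, θ y = rfh (f₀ : fixF β →+* RF E d) r (e (algebraMap F (RF F a) y)) :=
    fun y => rfl
  let P : IntermediateField L (RF (RF E d) r) := IntermediateField.adjoin L (Set.range fun y : F =>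
    rfh (f₀ : fixF β →+* RF E d) r (e (algebraMap F (RF F a) y)))
  have hP : P = IntermediateField.adjoin L (Set.range θ) := rfl
  have hmem : ∀ y, θ y ∈ P := fun y => IntermediateField.subset_adjoin L _ ⟨y, rfl⟩
  obtain ⟨zF, hzF⟩ : ∃ zF : Fin n → F, ∀ j, zF j =
    evP (algebraMap k F) ξ η (c j) / evP (algebraMap k F) ξ η g ^ N := ⟨_, fun j => rfl⟩
  have he' : ∀ j, e (algebraMap F (RF F a) (zF j)) = algebraMap (fixF β) (RF (fixF β) r) (w' j) :=
    fun j => by rw [hzF]; exact he j
  have hst1 : StIsoRel L (fun j => (⟨θ (zF j), hmem _⟩ : P))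
      (fun j => (⟨f₀ (w' j), IntermediateField.subset_adjoin L _ ⟨w' j, rfl⟩⟩ :
        (IntermediateField.adjoin L (Set.range f₀) : IntermediateField L (RF E d)))) :=
    st_LR (k := k) (L := L) f₀ e zF w' he' _ (fun j => rfl) _ (fun j => rfl)
  have hr0 : Set.range (fun y : fixF β => rfh (algebraMap K E) d (y : RF K d)) = Set.range f₀ := rfl
  have hr1 : Set.range (fun y : fixF δ => rfh (algebraMap K E) e' (y : RF K e')) =
    Set.range f₁ := rfl
  rw [hr0] at hfixβ
  rw [hr1] at hfixδ
  have hwβ : ∀ j, f₀ (w' j) ∈ fixF β' := by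
    intro j
    rw [hfixβ]
    exact IntermediateField.subset_adjoin L _ ⟨w' j, rfl⟩
  have hst3 : StIsoRel L (fun j => (⟨θ (zF j), hmem _⟩ : P))
      (fun j => (⟨f₀ (w' j), hwβ j⟩ : fixF β')) := by
    have key : ∀ (Q : IntermediateField L (RF E d)) (hQ : Q = IntermediateField.adjoin L
        (Set.range f₀)) (hm : ∀ j, f₀ (w' j) ∈ Q), StIsoRel L (fun j => (⟨θ (zF j), hmem _⟩ : P))
        (fun j => (⟨f₀ (w' j), hm j⟩ : Q)) := by
      rintro _ rfl hm
      exact hst1
    exact key _ hfixβ hwβ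
  have hwδ : ∀ j, f₁ (w j) ∈ fixF δ' := by
    intro j
    rw [hfixδ]
    exact IntermediateField.subset_adjoin L _ ⟨w j, rfl⟩
  have hdis : ∀ (n : ℕ) (b : Fin n → L), LinearIndependent k b → ∀ c : Fin n → F,
      ∑ i, θ (c i) * algebraMap L (RF (RF E d) r) (b i) = 0 → ∀ i, c i = 0 := by
    intro n b hb c hc i
    have hb' : LinearIndependent k fun i => algebraMap L E (b i) :=
      hb.map' (IsScalarTower.toAlgHom k L E).toLinearMap
        (LinearMap.ker_eq_bot.2 (algebraMap L E).injective)
    have h1 := dis_E hαs hβ (r := r) hb' (fun i => e (algebraMap F (RF F a) (c i))) (by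
      rw [← hc]
      refine Finset.sum_congr rfl fun i _ => ?_
      rw [hθ, IsScalarTower.algebraMap_apply L (RF E d) (RF (RF E d) r),
        IsScalarTower.algebraMap_apply L E (RF E d)]
      rfl) i
    have h2 : algebraMap F (RF F a) (c i) = 0 := (map_eq_zero_iff e e.injective).1 h1
    exact (map_eq_zero_iff _ (algebraMap F (RF F a)).injective).1 h2
  have hdis1 : ∀ (n : ℕ) (b : Fin n → L), LinearIndependent k b → ∀ c : Fin n → fixF δ,
      ∑ i, f₁ (c i) * algebraMap L (RF E e') (b i) = 0 → ∀ i, c i = 0 := by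
    intro n b hb c hc i
    have hb' : LinearIndependent k fun i => algebraMap L E (b i) :=
      hb.map' (IsScalarTower.toAlgHom k L E).toLinearMap
        (LinearMap.ker_eq_bot.2 (algebraMap L E).injective)
    have h1 := dis_E hγs hδ (r := 0) hb'
      (fun i => algebraMap (fixF δ) (RF (fixF δ) 0) (c i)) (by
      rw [← map_zero (algebraMap (RF E e') (RF (RF E e') 0)), ← hc, map_sum]
      refine Finset.sum_congr rfl fun i _ => ?_
      rw [rfh_C, map_mul, IsScalarTower.algebraMap_apply L E (RF E e')]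
      rfl) i
    exact (map_eq_zero_iff _ (algebraMap (fixF δ) (RF (fixF δ) 0)).injective).1 h1
  have hgen : Generic (polL k L f) P (fun i => ⟨θ (ξ i), hmem _⟩ : Fin m → P)
      (⟨θ η, hmem _⟩ : P) := gen_L θ hdis h hP (fun i => rfl) rfl
  -- values of polynomials
  have h2 : ((algebraMap P (RF (RF E d) r)).comp ((algebraMap L P).comp (algebraMap k L))) =
      (θ : F →+* RF (RF E d) r).comp (algebraMap k F) := by
    ext c
    show algebraMap L (RF (RF E d) r) (algebraMap k L c) = θ (algebraMap k F c)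
    rw [θ.commutes, ← IsScalarTower.algebraMap_apply k L (RF (RF E d) r)]
  have hval : ∀ q : (MvPolynomial (Fin m) k)[X],
      evP (algebraMap L P) (fun i => ⟨θ (ξ i), hmem _⟩ : Fin m → P) (⟨θ η, hmem _⟩ : P)
        (polL k L q) = (⟨θ (evP (algebraMap k F) ξ η q), hmem _⟩ : P) := by
    intro q
    apply (algebraMap P (RF (RF E d) r)).injective
    rw [evP_polL, ← evP_hom, h2]
    exact evP_hom (algebraMap k F) (θ : F →+* RF (RF E d) r) ξ η q
  have hkey := main_D (fibA L E γ) hfixL' pL hpLs hT β' hβ' δ' hδ' φ' hφ' hgen (g := polL k L g)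
    (by
      rw [hval]
      intro h0
      have h1 : θ (evP (algebraMap k F) ξ η g) = 0 := congrArg Subtype.val h0
      exact hg ((map_eq_zero_iff θ θ.injective).1 h1))
    (fun j => (⟨f₁ (w j), hwδ j⟩ : fixF δ'))
    (wL_top f₁ (fixF δ') hfixδ w hw _ (fun i => rfl))
    (fun j => polL k L (c j)) N (fun j => (⟨f₀ (w' j), hwβ j⟩ : fixF β')) (fun j => by
      show rfh (algebraMap K E) d (w' j : RF K d) = φ' (rfh (algebraMap K E) e' (w j : RF K e'))
      rw [hw', hφι])
    (by
      convert hst3 using 2 with j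
      rw [hval, hval]
      apply Subtype.ext
      show θ _ / θ _ ^ N = θ _
      rw [hzF, map_div₀, map_pow])
  exact hkey.mono (ptsA_L f₁ hdis1 (fixF δ') w _ (fun i => rfl))

end NF83
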