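import Pool.Agent.H.MP_83e36b_nt.rd.WDef
import Pool.Agent.H.MP_83e36b_nt.rg.FinG

/-! Relative weak approximation in terms of absolute values. -/

set_option autoImplicit false

open Polynomial NumberField IsDedekindDomain Topology DC83

namespace NF83

open CM83 NR83 WA83 AnWA

/-- local points `P` such that `π(P')` is in the closure of `V` for all `P'` nearer to `P` than `ε` can be
approximated up to `ε` by rational points -/
def EpsRel (kk : Type) [Field kk] [PlSys kk] {m : ℕ} (f g : (MvPolynomial (Fin m) kk)[X]) {r : ℕ}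
    (V : Set (Fin r → kk)) (c : Fin r → (MvPolynomial (Fin m) kk)[X]) (N : ℕ) : Prop :=
  ∀ (P : ∀ v : Pk kk, Pts f g (em v)) (ε : ℝ), 0 < ε →
    (∀ P' : ∀ v : Pk kk, Pts f g (em v), (∀ v, (∀ j, ‖(P' v).1.1 j - (P v).1.1 j‖ < ε) ∧
      ‖(P' v).1.2 - (P v).1.2‖ < ε) → ∀ ε' : ℝ, 0 < ε' →
      ∃ a ∈ V, ∀ v j, ‖em v (a j) - valP c N (P' v) j‖ < ε') →
    ∃ p : Pts f g (RingHom.id kk), ∀ v,
      (∀ j, ‖(mapPts (em v) p).1.1 j - (P v).1.1 j‖ < ε) ∧
        ‖(mapPts (em v) p).1.2 - (P v).1.2‖ < ε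

private theorem Opn_eps {k : Type} [Field k] [NumberField k] {m : ℕ}
    {f g : (MvPolynomial (Fin m) k)[X]} (T : Finset (HeightOneSpectrum (𝓞 k)))
    {U : Set ((∀ v : InfinitePlace k, Pts f g (algebraMap k v.Completion)) ×
      (∀ v : T, Pts f g (algebraMap k (v.1.adicCompletion k))))} (hU : IsOpen U)
    (D : ∀ i, Pts f g (complEmb T i))
    (hD : ((fun v : InfinitePlace k => D (Sum.inl v)), (fun v : T => D (Sum.inr v))) ∈ U) :
    ∃ ε₀ : ℝ, 0 < ε₀ ∧ ∀ D' : ∀ i, Pts f g (complEmb T i),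
      (∀ i, (∀ j, ‖(D' i).1.1 j - (D i).1.1 j‖ < ε₀) ∧ ‖(D' i).1.2 - (D i).1.2‖ < ε₀) →
      ((fun v : InfinitePlace k => D' (Sum.inl v)), (fun v : T => D' (Sum.inr v))) ∈ U := by
  by_contra hcon
  push Not at hcon
  have h1 : ∀ n : ℕ, ∃ D' : ∀ i, Pts f g (complEmb T i),
      (∀ i, (∀ j, ‖(D' i).1.1 j - (D i).1.1 j‖ < 1 / ((n : ℝ) + 1)) ∧
        ‖(D' i).1.2 - (D i).1.2‖ < 1 / ((n : ℝ) + 1)) ∧
      ((fun v : InfinitePlace k => D' (Sum.inl v)), (fun v : T => D' (Sum.inr v))) ∉ U :=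
    fun n => hcon _ (by positivity)
  choose E hE1 hE2 using h1
  have h2 : Filter.Tendsto (fun n => ((fun v : InfinitePlace k => E n (Sum.inl v)),
      (fun v : T => E n (Sum.inr v)))) Filter.atTop
      (𝓝 ((fun v : InfinitePlace k => D (Sum.inl v)), (fun v : T => D (Sum.inr v)))) := by
    rw [Prod.tendsto_iff]
    constructor
    · rw [tendsto_pi_nhds]
      intro v
      exact Pts.tendsto _ _ (fun N j => (hE1 N (Sum.inl v)).1 j) (fun N => (hE1 N (Sum.inl v)).2)
    · rw [tendsto_pi_nhds]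
      intro v
      exact Pts.tendsto _ _ (fun N j => (hE1 N (Sum.inr v)).1 j) (fun N => (hE1 N (Sum.inr v)).2)
  obtain ⟨n, hn⟩ := (h2.eventually (hU.mem_nhds hD)).exists
  exact hE2 n hn

/-- Proof: let `u` be in `U`; there is `ε₀ > 0` such that all families of points nearer to `u` than `ε₀`
at all the (finitely many) places are in `U` (the topology of `Pts` is induced by the coordinates; see
`FinR_nhds` in rg/FinG.lean and wa/Defs.lean).  For `n : ℕ` apply `EpsRel` for `plSys k T` (the places: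
`Sum.inl v`, `Sum.inr v`) to `u` and `ε = min ε₀ (1 / (n + 1))`: `P'` is in `U`, so `π(P')` is in the
closure of `V`, which gives `a` (`mem_closure_iff_nhds`, a finite product of balls).  The points `p n`
tend to `u` (end of the proof of `fin_of_rel` in rg/FinG.lean). -/
theorem warel_of_eps {k : Type} [Field k] [NumberField k] {m : ℕ}
    {f g : (MvPolynomial (Fin m) k)[X]} {r : ℕ} {V : Set (Fin r → k)}
    {c : Fin r → (MvPolynomial (Fin m) k)[X]} {N : ℕ}
    (h : ∀ T : Finset (HeightOneSpectrum (𝓞 k)), @EpsRel k _ (plSys k T) m f g r V c N) :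
    WARel k f g V c N := by
  classical
  intro T U hU hc
  rintro ⟨A, B⟩ hu
  let D : ∀ i, Pts f g (complEmb T i) := fun i =>
    match i with
    | Sum.inl v => A v
    | Sum.inr v => B v
  obtain ⟨ε₀, hε₀, hball⟩ := Opn_eps T hU D hu
  have hex : ∀ n : ℕ, ∃ p : Pts f g (RingHom.id k), ∀ i,
      (∀ j : Fin m, ‖(mapPts (complEmb T i) p).1.1 j - (D i).1.1 j‖ < 1 / ((n : ℝ) + 1)) ∧
      ‖(mapPts (complEmb T i) p).1.2 - (D i).1.2‖ < 1 / ((n : ℝ) + 1) := by
    intro n
    letI iP : PlSys k := plSys k T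
    have hT : EpsRel k f g V c N := h T
    have hmin : (0 : ℝ) < min ε₀ (1 / ((n : ℝ) + 1)) := lt_min hε₀ (by positivity)
    obtain ⟨p, hp⟩ := hT D (min ε₀ (1 / ((n : ℝ) + 1))) hmin (by
      intro P' hP' ε' hε'
      have h1 := hball P' (fun i => ⟨fun j => lt_of_lt_of_le ((hP' i).1 j) (min_le_left _ _),
        lt_of_lt_of_le (hP' i).2 (min_le_left _ _)⟩)
      have h2 := hc _ h1
      rw [mem_closure_iff_nhds] at h2
      obtain ⟨_, ⟨hq1, hq2⟩, a, rfl⟩ := h2
        ((Set.univ.pi fun v : InfinitePlace k => Set.univ.pi fun j : Fin r =>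
          Metric.ball (valP c N (P' (Sum.inl v)) j : v.Completion) ε') ×ˢ
        (Set.univ.pi fun v : T => Set.univ.pi fun j : Fin r =>
          Metric.ball (valP c N (P' (Sum.inr v)) j : v.1.adicCompletion k) ε')) (by
          rw [nhds_prod_eq]
          refine Filter.prod_mem_prod ?_ ?_
          · exact set_pi_mem_nhds Set.finite_univ fun v _ =>
              set_pi_mem_nhds Set.finite_univ fun j _ => Metric.ball_mem_nhds _ hε'
          · exact set_pi_mem_nhds Set.finite_univ fun v _ =>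
              set_pi_mem_nhds Set.finite_univ fun j _ => Metric.ball_mem_nhds _ hε')
      refine ⟨a.1, a.2, fun v j => ?_⟩
      match v with
      | Sum.inl v =>
        have h3 := hq1 v (Set.mem_univ _) j (Set.mem_univ _)
        rw [mem_ball_iff_norm] at h3
        exact h3
      | Sum.inr v =>
        have h3 := hq2 v (Set.mem_univ _) j (Set.mem_univ _)
        rw [mem_ball_iff_norm] at h3
        exact h3)
    exact ⟨p, fun i => ⟨fun j => lt_of_lt_of_le ((hp i).1 j) (min_le_right _ _),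
      lt_of_lt_of_le (hp i).2 (min_le_right _ _)⟩⟩
  choose p hp using hex
  refine mem_closure_of_tendsto (f := fun N => ((fun v : InfinitePlace k =>
    mapPts (algebraMap k v.Completion) (p N)),
    (fun v : T => mapPts (algebraMap k (v.1.adicCompletion k)) (p N)))) (b := Filter.atTop) ?_
    (Filter.Eventually.of_forall fun N => ⟨p N, rfl⟩)
  rw [Prod.tendsto_iff]
  constructor
  · rw [tendsto_pi_nhds]
    intro v
    exact Pts.tendsto _ _ (fun N j => (hp N (Sum.inl v)).1 j) (fun N => (hp N (Sum.inl v)).2)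
  · rw [tendsto_pi_nhds]
    intro v
    exact Pts.tendsto _ _ (fun N j => (hp N (Sum.inr v)).1 j) (fun N => (hp N (Sum.inr v)).2)

end NF83
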