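import Pool.Agent.H.MP_83e36b_nt.rd.TDef
import Pool.Agent.H.MP_83e36b_nt.nr.SI

/-! Stable isomorphism with given elements. -/

set_option autoImplicit false

namespace NF83

open CM83 NR83 WA83

theorem StIsoRel.symm {k : Type} [Field k] {F M : Type} [Field F] [Algebra k F] [Field M]
    [Algebra k M] {r : ℕ} {z : Fin r → F} {w : Fin r → M} (h : StIsoRel k z w) :
    StIsoRel k w z := by
  obtain ⟨a, b, e, he⟩ := h
  exact ⟨b, a, e.symm, fun j => by rw [← he, e.symm_apply_apply]⟩

private theorem SRel_core {P : Type} [Field P] {E : Type} [Field E]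
    [Algebra P E] {a : ℕ} (u : Fin a → E)
    (hu : AlgebraicIndependent P u) (htop : IntermediateField.adjoin P (Set.range u) = ⊤) :
    Nonempty (RF P a ≃ₐ[P] E) := by
  let f : RF P a →ₐ[P] E := IsFractionRing.liftAlgHom (K := RF P a) (g := MvPolynomial.aeval u) hu
  have hf : ∀ i, f (xv P i) = u i := by
    intro i
    show IsFractionRing.liftAlgHom (K := RF P a) (g := MvPolynomial.aeval u) hu
      (algebraMap (MvPolynomial (Fin a) P) (RF P a) (MvPolynomial.X i)) = u i
    rw [IsFractionRing.liftAlgHom_apply, IsFractionRing.lift_algebraMap]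
    exact MvPolynomial.aeval_X u i
  have hs : Function.Surjective f := by
    have h1 : IntermediateField.adjoin P (Set.range u) ≤ f.fieldRange := by
      rw [IntermediateField.adjoin_le_iff]
      rintro _ ⟨i, rfl⟩
      exact ⟨xv P i, hf i⟩
    intro z
    have h2 : z ∈ f.fieldRange := h1 (by rw [htop]; exact IntermediateField.mem_top)
    exact h2
  exact ⟨AlgEquiv.ofBijective f ⟨f.toRingHom.injective, hs⟩⟩

private theorem SRel_rfrf (K : Type) [Field K] (a b : ℕ) :
    Nonempty (RF (RF K a) b ≃ₐ[K] RF K (a + b)) :=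
  rf_rf (k := K) K a b

private theorem SRel_congr {k K L : Type} [Field k] [Field K] [Algebra k K] [Field L] [Algebra k L]
    (e : K ≃ₐ[k] L) (a : ℕ) : ∃ f : RF K a ≃ₐ[k] RF L a, ∀ c : K,
      f (algebraMap K (RF K a) c) = algebraMap L (RF L a) (e c) := by
  refine ⟨IsFractionRing.fieldEquivOfAlgEquiv k (RF K a) (RF L a)
    (MvPolynomial.mapAlgEquiv (Fin a) e), fun c => ?_⟩
  rw [IsScalarTower.algebraMap_apply K (MvPolynomial (Fin a) K) (RF K a),
    IsScalarTower.algebraMap_apply L (MvPolynomial (Fin a) L) (RF L a),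
    IsFractionRing.fieldEquivOfAlgEquiv_algebraMap]
  congr 1
  rw [MvPolynomial.algebraMap_eq, MvPolynomial.algebraMap_eq]
  show MvPolynomial.map (e : K →+* L) (MvPolynomial.C c) = _
  rw [MvPolynomial.map_C]
  rfl

/-- Proof: as `StablyIso.trans` in nr/SI.lean; the isomorphisms `rf_rf`, `rf_congr` are compatible with the
inclusions of the fields of constants (`rf_rf`: it is linear over `K`; copy with `≃ₐ[K]`; `rf_congr`:
`IsFractionRing.fieldEquivOfAlgEquiv` on the constants). -/
theorem StIsoRel.trans {k : Type} [Field k] {F M N : Type} [Field F] [Algebra k F] [Field M]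
    [Algebra k M] [Field N] [Algebra k N] {r : ℕ} {z : Fin r → F} {w : Fin r → M} {y : Fin r → N}
    (h : StIsoRel k z w) (h' : StIsoRel k w y) : StIsoRel k z y := by
  obtain ⟨a, b, e, he⟩ := h
  obtain ⟨c, d, e', he'⟩ := h'
  obtain ⟨e1⟩ := SRel_rfrf F a c
  obtain ⟨e2, he2⟩ := SRel_congr e c
  obtain ⟨e3⟩ := SRel_rfrf M b c
  obtain ⟨e4⟩ := SRel_rfrf M c b
  obtain ⟨e5, he5⟩ := SRel_congr e' b
  obtain ⟨e6⟩ := SRel_rfrf N d b
  obtain ⟨e7⟩ : Nonempty (RF M (b + c) ≃ₐ[M] RF M (c + b)) := by
    rw [add_comm]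
    exact ⟨AlgEquiv.refl⟩
  refine ⟨a + c, d + b, (e1.symm.restrictScalars k).trans (e2.trans ((e3.restrictScalars k).trans
    ((e7.restrictScalars k).trans ((e4.symm.restrictScalars k).trans
      (e5.trans (e6.restrictScalars k)))))), fun j => ?_⟩
  show e6 (e5 (e4.symm (e7 (e3 (e2 (e1.symm (algebraMap F (RF F (a + c)) (z j)))))))) = _
  rw [e1.symm.commutes, IsScalarTower.algebraMap_apply F (RF F a) (RF (RF F a) c), he2, he,
    ← IsScalarTower.algebraMap_apply M (RF M b) (RF (RF M b) c), e3.commutes, e7.commutes,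
    e4.symm.commutes, IsScalarTower.algebraMap_apply M (RF M c) (RF (RF M c) b), he5, he',
    ← IsScalarTower.algebraMap_apply N (RF N d) (RF (RF N d) b), e6.commutes]

/-- Proof: as `StablyIso.of_algInd` in nr/SI.lean; `si_core` there gives an isomorphism over `P`. -/
theorem StIsoRel.of_algInd {k P E : Type} [Field k] [Field P] [Algebra k P] [Field E] [Algebra k E]
    [Algebra P E] [IsScalarTower k P E] {n : ℕ} (u : Fin n → E) (hu : AlgebraicIndependent P u)
    (htop : IntermediateField.adjoin P (Set.range u) = ⊤) {r : ℕ} (z : Fin r → P) :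
    StIsoRel k z (fun j => algebraMap P E (z j)) := by
  obtain ⟨e⟩ := SRel_core u hu htop
  obtain ⟨e0⟩ : Nonempty (RF E 0 ≃ₐ[E] E) := by
    refine SRel_core (P := E) (E := E) (fun i : Fin 0 => i.elim0) ?_ ?_
    · rw [algebraicIndependent_empty_type_iff]
      exact (algebraMap E E).injective
    · rw [eq_top_iff]
      intro z _
      exact (IntermediateField.adjoin E (Set.range fun i : Fin 0 => (i.elim0 : E))).algebraMap_mem z
  refine ⟨n, 0, (e.restrictScalars k).trans (e0.symm.restrictScalars k), fun j => ?_⟩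
  show e0.symm (e (algebraMap P (RF P n) (z j))) = _
  rw [e.commutes]
  exact e0.symm.commutes (algebraMap P E (z j))

end NF83
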