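import Pool.Agent.H.MP_83e36b_nt.rd.TDef
import Pool.Agent.H.MP_83e36b_nt.rf.GDefR

/-! Relative weak approximation; lifting of homomorphisms of Galois groups with given local lifts. -/

set_option autoImplicit false

open Polynomial NumberField IsDedekindDomain

namespace NF83

open CM83 NR83 WA83 DC83

/-- Weak approximation for the variety `X : f(u, y) = 0`, `f_y(u, y) g(u, y) ≠ 0` over the number field
`k` relative to the map `π = (c_j / g^N)_j` from `X` to the affine space and to the set `V` of points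
with coordinates in `k`: for every finite set `T` of finite places of `k`, every open subset of the
product of the `X(k_v)`, `v` an infinite place or `v` in `T`, which is mapped by `π` into the closure of
`V` is contained in the closure of `X(k)`. -/
def WARel (k : Type) [Field k] [NumberField k] {m : ℕ} (f g : (MvPolynomial (Fin m) k)[X]) {r : ℕ}
    (V : Set (Fin r → k)) (c : Fin r → (MvPolynomial (Fin m) k)[X]) (N : ℕ) : Prop :=
  ∀ (T : Finset (HeightOneSpectrum (𝓞 k)))
    (U : Set ((∀ v : InfinitePlace k, Pts f g (algebraMap k v.Completion)) ×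
      (∀ v : T, Pts f g (algebraMap k (v.1.adicCompletion k))))), IsOpen U →
    (∀ u ∈ U, ((fun v => valP c N (u.1 v)), (fun v => valP c N (u.2 v))) ∈
      closure (Set.range fun a : V =>
        ((fun (v : InfinitePlace k) (j : Fin r) => algebraMap k v.Completion (a.1 j)),
          (fun (v : T) (j : Fin r) => algebraMap k (v.1.adicCompletion k) (a.1 j))))) →
    U ⊆ closure (Set.range fun p : Pts f g (RingHom.id k) =>
      ((fun v : InfinitePlace k => mapPts (algebraMap k v.Completion) p),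
       (fun v : T => mapPts (algebraMap k (v.1.adicCompletion k)) p)))

theorem WARel.mono {k : Type} [Field k] [NumberField k] {m : ℕ}
    {f g : (MvPolynomial (Fin m) k)[X]} {r : ℕ} {V V' : Set (Fin r → k)}
    {c : Fin r → (MvPolynomial (Fin m) k)[X]} {N : ℕ} (h : WARel k f g V c N) (hV : V' ⊆ V) :
    WARel k f g V' c N := by
  intro T U hU hc
  refine h T U hU fun u hu => closure_mono ?_ (hc u hu)
  rintro _ ⟨a, rfl⟩
  exact ⟨⟨a.1, hV a.2⟩, rfl⟩

/-- homomorphisms `β₀` of the absolute Galois group of `kk` to `A` have lifts to `G` with given local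
lifts (up to conjugation by elements over `1`) -/
def RelLift (kk : Type) [Field kk] [PlSys kk] {K : Type} [Field K] [Algebra kk K] {A G : Type}
    [Group A] [Group G] (γ : A →* (K ≃ₐ[kk] K)) (p : G →* A) : Prop :=
  ∀ (S : Finset (Pk kk)) (κ : K →+* Kb kk)
    (_ : κ.comp (algebraMap kk K) = algebraMap kk (Kb kk)) (ι : ∀ v : Pk kk, Kb kk →+* Ok v)
    (_ : ∀ v : Pk kk, (ι v).comp (algebraMap kk (Kb kk)) = (algebraMap (Cp v) (Ok v)).comp (em v))
    (β₀ : (Kb kk ≃ₐ[kk] Kb kk) →* A), Cts β₀ → (∀ τ x, τ (κ x) = κ (γ (β₀ τ) x)) →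
    ∀ ρ : ∀ v : Pk kk, (Ok v ≃ₐ[Cp v] Ok v) →* G, (∀ v, Cts (ρ v)) →
    (∀ v, ∃ b : A, γ b = 1 ∧ ∀ τ τ₀, (∀ x, ι v (τ₀ x) = τ (ι v x)) →
      β₀ τ₀ = b * p (ρ v τ) * b⁻¹) →
    ∃ ρ₀ : (Kb kk ≃ₐ[kk] Kb kk) →* G, Cts ρ₀ ∧ (∀ τ, p (ρ₀ τ) = β₀ τ) ∧
      ∀ v ∈ S, ∃ g : G, γ (p g) = 1 ∧ ∀ τ τ₀,
        (∀ x, ι v (τ₀ x) = τ (ι v x)) → ρ₀ τ₀ = g * ρ v τ * g⁻¹

end NF83
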